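import Pool.Agent.J6H77.N18.Stm

/-!
# Module ADD (helper19): adding an edge, adding a label
-/

set_option autoImplicit false

namespace Pool.Agent.J6H77.N18

open Finset

theorem add_sum_single {i j : ℕ} (hi : i < 18) (hj : j < 18) :
    ∑ a ∈ range 18, ∑ b ∈ range 18, (if a = i ∧ b = j then 1 else 0) * 65536 ^ (18 * a + b) =
      65536 ^ (18 * i + j) := by
  rw [Finset.sum_eq_single i, Finset.sum_eq_single j]
  · rw [if_pos ⟨rfl, rfl⟩, one_mul]
  · intro b _ hb
    rw [if_neg (fun h => hb h.2), zero_mul]
  · intro h
    exact absurd (Finset.mem_range.2 hj) h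
  · intro a _ ha
    refine Finset.sum_eq_zero fun b _ => ?_
    rw [if_neg (fun h => ha h.1), zero_mul]
  · intro h
    exact absurd (Finset.mem_range.2 hi) h

theorem add_shift (i j : ℕ) :
    Nat.shiftLeft 1 (Nat.add (Nat.mul 288 i) (Nat.mul 16 j)) = 65536 ^ (18 * i + j) := by
  have h1 : Nat.shiftLeft 1 (Nat.add (Nat.mul 288 i) (Nat.mul 16 j)) =
      1 <<< (288 * i + 16 * j) := rfl
  rw [h1, Nat.one_shiftLeft, show (65536 : ℕ) = 2 ^ 16 by norm_num, ← pow_mul]
  congr 1
  ring

theorem add_shiftV (k : ℕ) :
    Nat.shiftLeft 1 (Nat.mul 304 k) = 65536 ^ (18 * k + k) := by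
  have h1 : Nat.shiftLeft 1 (Nat.mul 304 k) = 1 <<< (304 * k) := rfl
  rw [h1, Nat.one_shiftLeft, show (65536 : ℕ) = 2 ^ 16 by norm_num, ← pow_mul]
  congr 1
  ring

theorem t_Add : S_Add := by
  refine ⟨?_, ?_, ?_⟩
  · intro k M c i j h hi hj h0
    have hk := h.k18
    have hij : i ≠ j := by
      intro e
      rw [← e, h.di i hi] at h0
      exact one_ne_zero h0
    have h0' : c j i = 0 := by rw [h.sy, h0]
    refine ⟨h.k18, ?_, ?_, ?_, ?_, ?_⟩
    · intro a b
      unfold cE
      split_ifs
      · exact le_rfl
      · exact h.le1 a b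
    · intro a b
      unfold cE
      by_cases hc : (a = i ∧ b = j) ∨ (a = j ∧ b = i)
      · rw [if_pos hc, if_pos (by tauto)]
      · rw [if_neg hc, if_neg (by tauto), h.sy]
    · intro a ha
      unfold cE
      split_ifs
      · rfl
      · exact h.di a ha
    · intro a b ha
      unfold cE
      rw [if_neg (by omega)]
      exact h.out a b ha
    · have hc : ∀ a b, cE c i j a b = c a b + (if a = i ∧ b = j then 1 else 0) +
          (if a = j ∧ b = i then 1 else 0) := by
        intro a b
        unfold cE
        by_cases h1 : a = i ∧ b = j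
        · obtain ⟨rfl, rfl⟩ := h1
          simp [h0, hij]
        · by_cases h2 : a = j ∧ b = i
          · obtain ⟨rfl, rfl⟩ := h2
            simp [h0', hij.symm]
          · rw [if_neg (not_or.2 ⟨h1, h2⟩), if_neg h1, if_neg h2, add_zero, add_zero]
      have e : addE M i j = M + (65536 ^ (18 * i + j) + 65536 ^ (18 * j + i)) := by
        unfold addE
        rw [add_shift, add_shift]
        rfl
      rw [e]
      simp only [hc, add_mul, Finset.sum_add_distrib]
      rw [add_sum_single (by omega) (by omega), add_sum_single (by omega) (by omega), ← h.eq,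
        add_assoc]
  · intro k M c h hk
    have h0 : c k k = 0 := h.out k k le_rfl
    refine ⟨hk, ?_, ?_, ?_, ?_, ?_⟩
    · intro a b
      unfold cV
      split_ifs
      · exact le_rfl
      · exact h.le1 a b
    · intro a b
      unfold cV
      by_cases hc : a = k ∧ b = k
      · rw [if_pos hc, if_pos hc.symm]
      · rw [if_neg hc, if_neg (fun h => hc h.symm), h.sy]
    · intro a ha
      unfold cV
      split_ifs with hc
      · rfl
      · exact h.di a (by omega)
    · intro a b ha
      unfold cV
      rw [if_neg (by omega)]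
      exact h.out a b (by omega)
    · have hc : ∀ a b, cV c k a b = c a b + (if a = k ∧ b = k then 1 else 0) := by
        intro a b
        unfold cV
        by_cases h1 : a = k ∧ b = k
        · obtain ⟨rfl, rfl⟩ := h1
          simp [h0]
        · rw [if_neg h1, if_neg h1, add_zero]
      have e : addV M k = M + 65536 ^ (18 * k + k) := by
        unfold addV
        rw [add_shiftV]
        rfl
      rw [e]
      simp only [hc, add_mul, Finset.sum_add_distrib]
      rw [add_sum_single hk hk, ← h.eq]
  · refine ⟨Nat.zero_le _, fun _ _ => Nat.zero_le _, fun _ _ => rfl, ?_, fun _ _ _ => rfl, ?_⟩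
    · intro i hi
      exact absurd hi (Nat.not_lt_zero i)
    · simp

end Pool.Agent.J6H77.N18
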