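import Pool.Agent.J6H77.N18.Stm

/-!
# Module COMP: the neighbours of a completed label
-/

set_option autoImplicit false

namespace Pool.Agent.J6H77.N18

open Finset

theorem t_Comp : S_Comp := by
  intro k M c V _ _ A _ φ hS hC hinj hadj i hi hdeg w
  have hone : ∀ j, c i j = 0 ∨ c i j = 1 := by
    intro j
    have := hS.le1 i j
    omega
  -- the labels in the row `i`
  have hJ : ((range 18).filter (fun j => c i j = 1)).card = 4 := by
    rw [← hdeg, Finset.card_filter]
    refine Finset.sum_congr rfl fun j _ => ?_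
    rcases hone j with h | h <;> simp [h]
  have hk : ∀ j, c i j = 1 → j < k := by
    intro j hj
    by_contra h
    have h1 := hS.out j i (not_lt.1 h)
    rw [hS.sy j i, hj] at h1
    omega
  have h18 := hS.k18
  have hmem : i ∈ (range 18).filter (fun j => c i j = 1) := by
    rw [Finset.mem_filter, Finset.mem_range]
    exact ⟨by omega, hS.di i hi⟩
  have hJ' : (((range 18).filter (fun j => c i j = 1)).erase i).card = 3 := by
    rw [Finset.card_erase_of_mem hmem, hJ]
  have hJm : ∀ j, j ∈ ((range 18).filter (fun j => c i j = 1)).erase i ↔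
      j < k ∧ j ≠ i ∧ c i j = 1 := by
    intro j
    rw [Finset.mem_erase, Finset.mem_filter, Finset.mem_range]
    constructor
    · rintro ⟨h1, _, h2⟩
      exact ⟨hk j h2, h1, h2⟩
    · rintro ⟨h1, h2, h3⟩
      exact ⟨h2, by omega, h3⟩
  have himg : ((((range 18).filter (fun j => c i j = 1)).erase i).image φ).card = 3 := by
    rw [Finset.card_image_of_injOn, hJ']
    intro a ha b hb hab
    exact hinj a b ((hJm a).1 ha).1 ((hJm b).1 hb).1 hab
  have hsub : (((range 18).filter (fun j => c i j = 1)).erase i).image φ ⊆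
      univ.filter (fun w => A (φ i) w) := by
    intro w hw
    obtain ⟨j, hj, rfl⟩ := Finset.mem_image.1 hw
    obtain ⟨h1, h2, h3⟩ := (hJm j).1 hj
    rw [Finset.mem_filter]
    exact ⟨Finset.mem_univ _, hadj i j hi h1 (fun h => h2 h.symm) h3⟩
  have heq := Finset.eq_of_subset_of_card_le hsub (by rw [himg, hC.deg])
  have h1 : A (φ i) w ↔ w ∈ univ.filter (fun w => A (φ i) w) := by
    rw [Finset.mem_filter]
    simp
  rw [h1, ← heq, Finset.mem_image]
  constructor
  · rintro ⟨j, hj, rfl⟩
    obtain ⟨h2, h3, h4⟩ := (hJm j).1 hj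
    exact ⟨j, h2, h3, h4, rfl⟩
  · rintro ⟨j, h2, h3, h4, rfl⟩
    exact ⟨j, (hJm j).2 ⟨h2, h3, h4⟩, rfl⟩

end Pool.Agent.J6H77.N18
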