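import Pool.Agent.J6H77.N18.Stm

/-!
# Module CX: from a nut graph to a counterexample
-/

set_option autoImplicit false

namespace Pool.Agent.J6H77.N18

open Finset

theorem t_Cx : S_Cx := by
  classical
  rintro ⟨V, iF, G, hV, hreg, h2, x, hx, hker⟩
  have hmul : ∀ (y : V → ℝ) (v : V),
      (Matrix.toLin' (G.adjMatrix ℝ) y) v = ∑ w, (if G.Adj v w then y w else 0) := by
    intro y v
    rw [Matrix.toLin'_apply, Matrix.mulVec, dotProduct]
    refine Finset.sum_congr rfl fun w _ => ?_
    rw [SimpleGraph.adjMatrix_apply]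
    split_ifs <;> simp
  have hmem : ∀ y : V → ℝ, (∀ v, ∑ w, (if G.Adj v w then y w else 0) = 0) ↔
      ∃ c : ℝ, c • x = y := by
    intro y
    rw [← Submodule.mem_span_singleton, ← hker, LinearMap.mem_ker]
    constructor
    · intro h
      funext v
      rw [hmul]
      exact h v
    · intro h v
      rw [← hmul, h]
      rfl
  have hdeg : ∀ v, (univ.filter (fun w => G.Adj v w)).card = 14 := by
    intro v
    have h := hreg v
    rw [← SimpleGraph.card_neighborFinset_eq_degree, SimpleGraph.neighborFinset_eq_filter] at h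
    exact h
  have hdeg' : ∀ v, (univ.filter (fun w => G.Adj w v)).card = 14 := by
    intro v
    rw [← hdeg v]
    congr 1
    ext w
    simp [G.adj_comm]
  -- the sum over all rows
  have hsum : ∀ y : V → ℝ, ∑ v, ∑ w, (if G.Adj v w then y w else 0) = 14 * ∑ w, y w := by
    intro y
    rw [Finset.sum_comm, Finset.mul_sum]
    refine Finset.sum_congr rfl fun w _ => ?_
    rw [← Finset.sum_filter, Finset.sum_const, hdeg', nsmul_eq_mul]
    norm_num
  have hA : ∀ (y : V → ℝ) (v : V),
      y v + ∑ w, (if (v ≠ w ∧ ¬ G.Adj v w) then y w else 0) =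
        ∑ w, y w - ∑ w, (if G.Adj v w then y w else 0) := by
    intro y v
    rw [eq_sub_iff_add_eq, ← Finset.add_sum_erase univ (fun w => if G.Adj v w then y w else 0)
      (Finset.mem_univ v), ← Finset.add_sum_erase univ
        (fun w => if (v ≠ w ∧ ¬ G.Adj v w) then y w else 0) (Finset.mem_univ v),
      ← Finset.add_sum_erase univ y (Finset.mem_univ v)]
    simp only [ne_eq, not_true_eq_false, false_and, if_false, SimpleGraph.irrefl, zero_add,
      add_assoc, ← Finset.sum_add_distrib]
    congr 1
    refine Finset.sum_congr rfl fun w hw => ?_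
    have hvw : v ≠ w := fun h => (Finset.mem_erase.1 hw).1 h.symm
    by_cases h : G.Adj v w <;> simp [hvw, h]
  refine ⟨V, iF, inferInstance, fun u v => u ≠ v ∧ ¬ G.Adj u v, fun _ _ => inferInstance,
    ⟨hV, fun u v h => ⟨h.1.symm, fun h' => h.2 h'.symm⟩, fun v h => h.1 rfl, fun v => ?_,
      x, hx, fun v => ?_, fun y hy => ?_⟩⟩
  · have e1 : univ.filter (fun w => v ≠ w ∧ ¬ G.Adj v w) =
        (univ.filter (fun w => ¬ G.Adj v w)).erase v := by
      ext w
      simp [eq_comm]
    have e2 := Finset.card_filter_add_card_filter_not (s := (univ : Finset V)) (fun w => G.Adj v w)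
    rw [hdeg, Finset.card_univ, hV] at e2
    rw [e1, Finset.card_erase_of_mem (by simp)]
    omega
  · have h1 : ∀ v, ∑ w, (if G.Adj v w then x w else 0) = 0 := (hmem x).2 ⟨1, one_smul _ x⟩
    have h3 : ∑ w, x w = 0 := by
      have h4 := hsum x
      rw [Finset.sum_eq_zero fun v _ => h1 v] at h4
      linarith
    rw [hA, h1, h3, sub_zero]
  · have h1 : ∀ v, ∑ w, (if G.Adj v w then y w else 0) = ∑ w, y w := fun v => by
      have := hy v
      rw [hA] at this
      linarith
    have h3 : ∑ w, y w = 0 := by
      have h4 := hsum y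
      rw [Finset.sum_congr rfl fun v _ => h1 v, Finset.sum_const, Finset.card_univ, hV,
        nsmul_eq_mul] at h4
      norm_num at h4
      linarith
    obtain ⟨c, hc⟩ := (hmem y).1 fun v => by rw [h1, h3]
    exact ⟨c, fun v => by rw [← hc]; rfl⟩

end Pool.Agent.J6H77.N18
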