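import Pool.Agent.J6H77.N18.Def

/-!
# Chains of items
-/

set_option autoImplicit false

namespace Pool.Agent.J6H77.N18

/-- the items `n, ..., n' - 1` are checked -/
def Chain (tab : ℕ → ℕ) (n n' : ℕ) : Prop :=
  ∃ l : List (List ℕ), items tab n l = true ∧ n' = n + l.length

theorem items_append (tab : ℕ → ℕ) (l l' : List (List ℕ)) (n : ℕ) :
    items tab n (l ++ l') = (items tab n l && items tab (n + l.length) l') := by
  induction l generalizing n with
  | nil => simp [items]
  | cons w l ih =>
    simp only [List.cons_append, items, ih, List.length_cons, Bool.and_assoc, Nat.succ_eq_add_one]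
    congr 3
    ring

theorem Chain.trans {tab : ℕ → ℕ} {a b c : ℕ} (h : Chain tab a b) (h' : Chain tab b c) :
    Chain tab a c := by
  obtain ⟨l, h1, rfl⟩ := h
  obtain ⟨l', h1', rfl⟩ := h'
  refine ⟨l ++ l', ?_, ?_⟩
  · rw [items_append, h1, h1']
    rfl
  · rw [List.length_append]
    ring

theorem Chain.mk' {tab : ℕ → ℕ} {n : ℕ} (l : List (List ℕ)) (n' : ℕ) (h : items tab n l = true)
    (h' : Nat.beq (n + l.length) n' = true) : Chain tab n n' :=
  ⟨l, h, (Nat.eq_of_beq_eq_true h').symm⟩

end Pool.Agent.J6H77.N18
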