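import Pool.Agent.J6H77.N18.Stm

/-!
# Module DEP
-/

set_option autoImplicit false

namespace Pool.Agent.J6H77.N18

open Finset

/-- uniqueness of digits -/
theorem dep_digits : ∀ (n : ℕ) (f g : ℕ → ℕ), (∀ j, j < n → f j < 65536) →
    (∀ j, j < n → g j < 65536) →
    ∑ j ∈ range n, f j * 65536 ^ j = ∑ j ∈ range n, g j * 65536 ^ j → ∀ j, j < n → f j = g j := by
  intro n
  induction n with
  | zero => intro f g _ _ _ j hj; omega
  | succ n ih =>
    intro f g hf hg h j hj
    have e : ∀ f : ℕ → ℕ, ∑ j ∈ range (n + 1), f j * 65536 ^ j =
        65536 * (∑ j ∈ range n, f (j + 1) * 65536 ^ j) + f 0 := by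
      intro f
      rw [sum_range_succ', mul_sum, pow_zero, mul_one]
      congr 1
      refine sum_congr rfl fun j _ => ?_
      ring
    rw [e f, e g] at h
    have h1 := hf 0 (by omega)
    have h2 := hg 0 (by omega)
    have h3 : f 0 = g 0 := by omega
    have h4 : ∑ j ∈ range n, f (j + 1) * 65536 ^ j = ∑ j ∈ range n, g (j + 1) * 65536 ^ j := by
      omega
    cases j with
    | zero => exact h3
    | succ j =>
      exact ih (fun j => f (j + 1)) (fun j => g (j + 1)) (fun j hj => hf _ (by omega))
        (fun j hj => hg _ (by omega)) h4 j (by omega)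

theorem t_Dep (hD : S_Dig) (hF : S_Fold) (hC : S_Comp) (_hR : S_Row) : S_Dep := by
  classical
  intro k M w h c hSh V _ _ A _ hCx ⟨φ, hinj, hedge⟩
  obtain ⟨-, hrow, -, hdeg, hdeg0⟩ := hD k M c hSh
  unfold depC at h
  generalize ha : Nat.mod w 32 = a at h
  generalize hd : Nat.mod (Nat.shiftRight w 5) 2048 = d at h
  generalize hb : Nat.mod (Nat.shiftRight w 26) 32 = b at h
  generalize hnp : Nat.mod (Nat.shiftRight w 16) 32 = np at h
  generalize hnq : Nat.mod (Nat.shiftRight w 21) 32 = nq at h
  have hd2 : d < 2048 := by rw [← hd]; exact Nat.mod_lt _ (by norm_num)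
  have hnp2 : np < 32 := by rw [← hnp]; exact Nat.mod_lt _ (by norm_num)
  have hnq2 : nq < 32 := by rw [← hnq]; exact Nat.mod_lt _ (by norm_num)
  rw [Bool.and_eq_true, Bool.and_eq_true, Bool.and_eq_true, Bool.and_eq_true] at h
  obtain ⟨h1, h2, h3, h4, h5⟩ := h
  have h1 : cdeg M a = 4 := Nat.eq_of_beq_eq_true h1
  have h2 : d ≠ 0 := by
    rintro rfl
    exact absurd h2 (by decide)
  have h3 : a ≠ b := by
    rintro rfl
    simp at h3
  have h4 : b < k ∨ k < 18 := by
    rw [Bool.or_eq_true] at h4
    exact h4.imp (fun h => by simpa using h) (fun h => by simpa using h)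
  split at h5
  case h_2 => exact absurd h5 (by decide)
  rename_i P Q hP hQ
  have h5 : d * row M a + P = Q := Nat.eq_of_beq_eq_true h5
  obtain ⟨p, hp1, hp2, hp3⟩ := hF M a b _ _ _ _ hdeg0 hP
  obtain ⟨q, hq1, hq2, hq3⟩ := hF M a b _ _ _ _ hdeg0 hQ
  have ha18 : a < 18 := by
    by_contra hc
    rw [hdeg0 a (by omega)] at h1
    omega
  have hak : a < k := by
    by_contra hc
    rw [hdeg a ha18, sum_eq_zero fun j _ => hSh.out a j (by omega)] at h1
    omega
  have hk18 := hSh.k18
  -- the equations for the columns
  have hcol : ∀ j, j < 18 → d * c a j + ∑ i ∈ range 18, p i * c i j =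
      ∑ i ∈ range 18, q i * c i j := by
    have hle : ∀ (r : ℕ → ℕ) (j : ℕ), ∑ i ∈ range 18, r i * c i j ≤ ∑ i ∈ range 18, r i := by
      intro r j
      refine sum_le_sum fun i _ => ?_
      have := hSh.le1 i j
      nlinarith
    apply dep_digits 18
    · intro j _
      have e1 := hle p j
      have e2 : d * c a j ≤ d := by
        have := hSh.le1 a j
        nlinarith
      have e3 : 2047 * np ≤ 2047 * 31 := by omega
      omega
    · intro j _
      have e1 := hle q j
      have e3 : 2047 * nq ≤ 2047 * 31 := by omega
      omega
    · have key : ∀ r : ℕ → ℕ, ∑ i ∈ range 18, r i * row M i =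
          ∑ j ∈ range 18, (∑ i ∈ range 18, r i * c i j) * 65536 ^ j := by
        intro r
        calc ∑ i ∈ range 18, r i * row M i =
            ∑ i ∈ range 18, ∑ j ∈ range 18, r i * c i j * 65536 ^ j := by
              refine sum_congr rfl fun i hi => ?_
              rw [hrow i (mem_range.1 hi), mul_sum]
              exact sum_congr rfl fun j _ => by ring
          _ = _ := by
              rw [sum_comm]
              exact sum_congr rfl fun j _ => by rw [sum_mul]
      rw [hp3, hq3, key p, key q, hrow a ha18, mul_sum, zero_add, zero_add] at h5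
      rw [← h5, ← sum_add_distrib]
      exact sum_congr rfl fun j _ => by ring
  -- the vector
  obtain ⟨z, hz⟩ : ∃ z : ℕ → ℝ, ∀ i, z i = (p i : ℝ) - q i + if i = a then (d : ℝ) else 0 :=
    ⟨_, fun _ => rfl⟩
  have hcol' : ∀ j, j < k → ∑ i ∈ range k, z i * (c i j : ℝ) = 0 := by
    intro j hj
    have e1 : ∑ i ∈ range k, z i * (c i j : ℝ) = ∑ i ∈ range 18, z i * (c i j : ℝ) := by
      apply sum_subset (range_mono hk18)
      intro i _ hi
      rw [hSh.out i j (by simpa using hi)]
      simp
    rw [e1]
    have e2 := hcol j (by omega)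
    have e3 : (d : ℝ) * c a j + ∑ i ∈ range 18, (p i : ℝ) * c i j =
        ∑ i ∈ range 18, (q i : ℝ) * c i j := by exact_mod_cast e2
    have e4 : ∑ i ∈ range 18, z i * (c i j : ℝ) = (∑ i ∈ range 18, (p i : ℝ) * c i j -
        ∑ i ∈ range 18, (q i : ℝ) * c i j) + d * c a j := by
      rw [← sum_sub_distrib]
      have e5 : (d : ℝ) * c a j = ∑ i ∈ range 18, if i = a then (d : ℝ) * c i j else 0 := by
        rw [sum_ite_eq' (range 18) a, if_pos (mem_range.2 ha18)]
      rw [e5, ← sum_add_distrib]
      refine sum_congr rfl fun i _ => ?_
      rw [hz]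
      split_ifs <;> ring
    rw [e4]
    linarith
  have hzdeg : ∀ i, i < k → z i ≠ 0 → ∑ j ∈ range 18, c i j = 4 := by
    intro i hi hzi
    rw [← hdeg i (by omega)]
    by_cases hp : p i = 0
    · by_cases hq : q i = 0
      · by_cases hia : i = a
        · rw [hia]; exact h1
        · exfalso
          apply hzi
          rw [hz]
          simp [hp, hq, hia]
      · exact (hq1 i hq).1
    · exact (hp1 i hp).1
  have hz0 : ∀ i, i = b → z i = 0 := by
    rintro i rfl
    have hp : p i = 0 := by
      by_contra hc
      exact (hp1 i hc).2.2 rfl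
    have hq : q i = 0 := by
      by_contra hc
      exact (hq1 i hc).2.2 rfl
    rw [hz]
    simp [hp, hq, h3.symm]
  have hza : z a = d := by
    have hp : p a = 0 := by
      by_contra hc
      exact (hp1 a hc).2.1 rfl
    have hq : q a = 0 := by
      by_contra hc
      exact (hq1 a hc).2.1 rfl
    rw [hz]
    simp [hp, hq]
  obtain ⟨x, hx0, -, hxu⟩ := hCx.ex
  let y : V → ℝ := fun v => ∑ i ∈ range k, if φ i = v then z i else 0
  have hyφ : ∀ i, i < k → y (φ i) = z i := by
    intro i hi
    show ∑ i' ∈ range k, (if φ i' = φ i then z i' else 0) = z i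
    rw [sum_eq_single i]
    · simp
    · intro j hj hji
      rw [if_neg]
      exact fun h => hji (hinj j i (mem_range.1 hj) hi h)
    · intro h
      exact absurd (mem_range.2 hi) h
  have hker : ∀ v, y v + ∑ u, (if A v u then y u else 0) = 0 := by
    intro v
    have e1 : ∑ u, (if A v u then y u else 0) = ∑ i ∈ range k, if A (φ i) v then z i else 0 := by
      calc ∑ u, (if A v u then y u else 0) =
          ∑ u, ∑ i ∈ range k, (if A v u then (if φ i = u then z i else 0) else 0) := by
            refine sum_congr rfl fun u _ => ?_
            split_ifs with hu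
            · rfl
            · simp
        _ = ∑ i ∈ range k, ∑ u, (if A v u then (if φ i = u then z i else 0) else 0) := sum_comm
        _ = _ := by
            refine sum_congr rfl fun i _ => ?_
            rw [sum_eq_single (φ i)]
            · by_cases hA : A v (φ i)
              · rw [if_pos hA, if_pos (hCx.symm _ _ hA), if_pos rfl]
              · rw [if_neg hA, if_neg fun h => hA (hCx.symm _ _ h)]
            · intro u _ hu
              rw [if_neg (show ¬ φ i = u from fun h => hu h.symm), ite_self]
            · intro h
              exact absurd (mem_univ _) h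
    rw [e1]
    have e2 : ∀ i, i < k → ((if φ i = v then z i else 0) + if A (φ i) v then z i else 0) =
        ∑ j ∈ range k, (if v = φ j then z i * (c i j : ℝ) else 0) := by
      intro i hi
      by_cases hzi : z i = 0
      · rw [hzi]
        simp
      · have hN := hC k M c V A φ hSh hCx hinj hedge i hi (hzdeg i hi hzi) v
        by_cases hv : ∃ j, j < k ∧ v = φ j
        · obtain ⟨j, hj, rfl⟩ := hv
          rw [sum_eq_single j]
          · rw [if_pos rfl]
            by_cases hji : j = i
            · subst hji
              rw [if_pos rfl, if_neg (hCx.irr _), hSh.di j hj]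
              simp
            · rw [if_neg fun h => hji (hinj _ _ hj hi h.symm)]
              have hcij := hSh.le1 i j
              rcases Nat.eq_zero_or_pos (c i j) with h0 | h0
              · rw [h0, if_neg]
                · simp
                · rw [hN]
                  rintro ⟨j', hj', _, h1', h2'⟩
                  have := hinj _ _ hj hj' h2'
                  subst this
                  omega
              · have h1' : c i j = 1 := by omega
                rw [h1', if_pos (hN.2 ⟨j, hj, hji, h1', rfl⟩)]
                simp
          · intro j' hj' hne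
            rw [if_neg]
            exact fun h => hne (hinj _ _ (mem_range.1 hj') hj h.symm)
          · intro h
            exact absurd (mem_range.2 hj) h
        · rw [if_neg fun h => hv ⟨i, hi, h.symm⟩, if_neg]
          · rw [sum_eq_zero, zero_add]
            intro j hj
            rw [if_neg fun h => hv ⟨j, mem_range.1 hj, h⟩]
          · rw [hN]
            rintro ⟨j, hj, _, _, h⟩
            exact hv ⟨j, hj, h⟩
    show ∑ i ∈ range k, (if φ i = v then z i else 0) + _ = 0
    rw [← sum_add_distrib, sum_congr rfl fun i hi => e2 i (mem_range.1 hi), sum_comm]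
    refine sum_eq_zero fun j hj => ?_
    by_cases hv : v = φ j
    · simp only [if_pos hv]
      exact hcol' j (mem_range.1 hj)
    · simp only [if_neg hv]
      simp
  obtain ⟨c', hc'⟩ := hxu y hker
  have hc0 : c' = 0 := by
    rcases h4 with hbk | hk
    · have e1 := hc' (φ b)
      rw [hyφ b hbk, hz0 b rfl] at e1
      rcases mul_eq_zero.1 e1.symm with h | h
      · exact h
      · exact absurd h (hx0 _)
    · obtain ⟨v, hv⟩ : ∃ v, ∀ i, i < k → φ i ≠ v := by
        by_contra hcon
        push Not at hcon
        have hcard : Fintype.card V ≤ k := by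
          rw [← card_univ, ← card_range k]
          calc (univ : Finset V).card ≤ ((range k).image φ).card := by
                apply card_le_card
                intro v _
                obtain ⟨i, hi, h⟩ := hcon v
                exact mem_image.2 ⟨i, mem_range.2 hi, h⟩
            _ ≤ _ := card_image_le
        have := hCx.card
        omega
      have e1 := hc' v
      have e2 : y v = 0 := by
        show ∑ i ∈ range k, (if φ i = v then z i else 0) = 0
        exact sum_eq_zero fun i hi => if_neg (hv i (mem_range.1 hi))
      rw [e2] at e1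
      rcases mul_eq_zero.1 e1.symm with h | h
      · exact h
      · exact absurd h (hx0 _)
  have e1 := hc' (φ a)
  rw [hyφ a hak, hza, hc0, zero_mul] at e1
  exact h2 (by exact_mod_cast e1)

end Pool.Agent.J6H77.N18
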