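import Pool.Agent.J6H77.N18.Stm

/-!
# Module DIG: digits of the number storing a partial graph
-/

set_option autoImplicit false

namespace Pool.Agent.J6H77.N18

open Finset

namespace DIG

/-- digits of a sum `∑ t < n, d t * b ^ t` -/
theorem digit (b : ℕ) (hb : 0 < b) : ∀ (s n : ℕ) (d : ℕ → ℕ), (∀ t, d t < b) →
    ((∑ t ∈ range n, d t * b ^ t) / b ^ s) % b = if s < n then d s else 0 := by
  intro s
  induction s with
  | zero =>
    intro n d hd
    cases n with
    | zero => simp
    | succ n =>
      rw [sum_range_succ']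
      have h : ∑ t ∈ range n, d (t + 1) * b ^ (t + 1) = b * ∑ t ∈ range n, d (t + 1) * b ^ t := by
        rw [mul_sum]
        exact sum_congr rfl (fun t _ => by ring)
      rw [h]
      simp only [pow_zero, Nat.div_one, mul_one, Nat.zero_lt_succ, if_true]
      rw [Nat.mul_add_mod]
      exact Nat.mod_eq_of_lt (hd 0)
  | succ s ih =>
    intro n d hd
    cases n with
    | zero => simp
    | succ n =>
      rw [sum_range_succ']
      have h : ∑ t ∈ range n, d (t + 1) * b ^ (t + 1) = b * ∑ t ∈ range n, d (t + 1) * b ^ t := by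
        rw [mul_sum]
        exact sum_congr rfl (fun t _ => by ring)
      rw [h, pow_succ', ← Nat.div_div_eq_div_mul]
      have h2 : (b * ∑ t ∈ range n, d (t + 1) * b ^ t + d 0 * b ^ 0) / b
          = ∑ t ∈ range n, d (t + 1) * b ^ t := by
        rw [pow_zero, mul_one, Nat.mul_add_div hb, Nat.div_eq_of_lt (hd 0), add_zero]
      rw [h2, ih n (fun t => d (t + 1)) (fun t => hd (t + 1))]
      simp

/-- a number with `n` digits is less than `b ^ n` -/
theorem lt_pow (b : ℕ) : ∀ (n : ℕ) (d : ℕ → ℕ), (∀ t, d t < b) →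
    ∑ t ∈ range n, d t * b ^ t < b ^ n := by
  intro n
  induction n with
  | zero => intro d _; simp
  | succ n ih =>
    intro d hd
    rw [sum_range_succ, pow_succ']
    have h1 := ih d hd
    have h2 : d n + 1 ≤ b := hd n
    have h3 : (d n + 1) * b ^ n ≤ b * b ^ n := Nat.mul_le_mul_right _ h2
    have h4 : (d n + 1) * b ^ n = d n * b ^ n + b ^ n := by ring
    omega

theorem big_eq : big = 65536 ^ 18 := by
  unfold big; norm_num

end DIG

open DIG in
theorem t_Dig : S_Dig := by
  intro k M c h
  have hc : ∀ i j, c i j < 65536 := fun i j => lt_of_le_of_lt (h.le1 i j) (by norm_num)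
  have hbig : (0 : ℕ) < 65536 ^ 18 := by positivity
  -- the rows
  have hR : ∀ i, ∑ j ∈ range 18, c i j * 65536 ^ j < 65536 ^ 18 :=
    fun i => lt_pow 65536 18 (fun j => c i j) (hc i)
  have hM : M = ∑ i ∈ range 18, (∑ j ∈ range 18, c i j * 65536 ^ j) * (65536 ^ 18) ^ i := by
    rw [h.eq]
    refine sum_congr rfl (fun i _ => ?_)
    rw [sum_mul]
    refine sum_congr rfl (fun j _ => ?_)
    rw [pow_add, pow_mul]
    ring
  have hrow : ∀ i, row M i = if i < 18 then ∑ j ∈ range 18, c i j * 65536 ^ j else 0 := by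
    intro i
    have h1 : row M i = (M / (65536 ^ 18) ^ i) % 65536 ^ 18 := by
      show (M >>> (288 * i)) % big = _
      rw [big_eq, Nat.shiftRight_eq_div_pow]
      have e0 : (2 : ℕ) ^ 288 = 65536 ^ 18 := by
        rw [show (288 : ℕ) = 16 * 18 from rfl, pow_mul]
        norm_num
      rw [pow_mul, e0]
    rw [h1, hM]
    exact digit (65536 ^ 18) hbig i 18 (fun i => ∑ j ∈ range 18, c i j * 65536 ^ j) hR
  have hcd : ∀ i, i < 18 → cdeg M i = ∑ j ∈ range 18, c i j := by
    intro i hi
    show row M i % 65535 = _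
    rw [hrow i, if_pos hi]
    have h1 : (∑ j ∈ range 18, c i j * 65536 ^ j) ≡ ∑ j ∈ range 18, c i j [MOD 65535] := by
      have : ∀ n : ℕ, (∑ j ∈ range n, c i j * 65536 ^ j) ≡ ∑ j ∈ range n, c i j [MOD 65535] := by
        intro n
        induction n with
        | zero => exact Nat.ModEq.refl _
        | succ n ih =>
          rw [sum_range_succ, sum_range_succ]
          refine Nat.ModEq.add ih ?_
          have h2 : (65536 : ℕ) ^ n ≡ 1 ^ n [MOD 65535] :=
            Nat.ModEq.pow n (by decide)
          have h3 := Nat.ModEq.mul_left (c i n) h2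
          simpa using h3
      exact this 18
    have h4 : ∑ j ∈ range 18, c i j < 65535 := by
      have : ∑ j ∈ range 18, c i j ≤ ∑ _j ∈ range 18, 1 := sum_le_sum (fun j _ => h.le1 i j)
      have h5 : ∑ _j ∈ range 18, 1 = 18 := by simp
      omega
    have h6 : (∑ j ∈ range 18, c i j * 65536 ^ j) % 65535 = (∑ j ∈ range 18, c i j) % 65535 := h1
    rw [h6]
    exact Nat.mod_eq_of_lt h4
  refine ⟨?_, ?_, ?_, hcd, ?_⟩
  · intro i j hi hj
    have h1 : ent M i j = (row M i / 65536 ^ j) % 65536 := by
      show (M >>> (288 * i + 16 * j)) % 65536 = (((M >>> (288 * i)) % big) / 65536 ^ j) % 65536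
      rw [Nat.shiftRight_add, Nat.shiftRight_eq_div_pow (M >>> (288 * i)), big_eq]
      generalize M >>> (288 * i) = N
      have e1 : (2 : ℕ) ^ (16 * j) = 65536 ^ j := by
        rw [pow_mul]; norm_num
      rw [e1]
      have e2 : (65536 : ℕ) ^ 18 = 65536 ^ j * 65536 ^ (18 - j) := by
        rw [← pow_add]; congr 1; omega
      rw [e2, Nat.mod_mul_right_div_self]
      have e3 : (65536 : ℕ) ^ (18 - j) = 65536 * 65536 ^ (18 - j - 1) := by
        rw [← pow_succ']; congr 1; omega
      rw [e3, Nat.mod_mul_right_mod]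
    rw [h1, hrow i, if_pos hi]
    have := digit 65536 (by norm_num) j 18 (fun j => c i j) (hc i)
    rw [this, if_pos hj]
  · intro i hi
    rw [hrow i, if_pos hi]
  · intro i hi
    rw [hrow i, if_neg (by omega)]
  · intro i hi
    show row M i % 65535 = 0
    rw [hrow i, if_neg (by omega)]

end Pool.Agent.J6H77.N18
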