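import Pool.Agent.TH296.Nut.All

/-!
# Cubic graphs on 18 vertices: the checker

A partial graph on the labels `0, ..., k - 1` is stored in the number
`M = ∑ i j, c i j * 65536 ^ (18 * i + j)`, where `c` is the closed adjacency matrix.
-/

set_option autoImplicit false

namespace Pool.Agent.J6H77.N18

open Finset

/-- A counterexample: a cubic graph on `18` vertices such that the kernel of `A + 1` is spanned by
one vector without zero entries. -/
structure Cx (V : Type) [Fintype V] [DecidableEq V] (A : V → V → Prop) [DecidableRel A] : Prop where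
  card : Fintype.card V = 18
  symm : ∀ u v, A u v → A v u
  irr : ∀ v, ¬ A v v
  deg : ∀ v, (univ.filter (fun w => A v w)).card = 3
  ex : ∃ x : V → ℝ, (∀ v, x v ≠ 0) ∧ (∀ v, x v + ∑ w, (if A v w then x w else 0) = 0) ∧
    ∀ y : V → ℝ, (∀ v, y v + ∑ w, (if A v w then y w else 0) = 0) → ∃ c : ℝ, ∀ v, y v = c * x v

/-- `M` stores the closed adjacency matrix `c` of a partial graph on `k` labels -/
structure Sh (k M : ℕ) (c : ℕ → ℕ → ℕ) : Prop where
  k18 : k ≤ 18
  le1 : ∀ i j, c i j ≤ 1
  sy : ∀ i j, c i j = c j i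
  di : ∀ i, i < k → c i i = 1
  out : ∀ i j, k ≤ i → c i j = 0
  eq : M = ∑ i ∈ range 18, ∑ j ∈ range 18, c i j * 65536 ^ (18 * i + j)

/-- the partial graph occurs in the graph `A` -/
def Occ (k : ℕ) (c : ℕ → ℕ → ℕ) (V : Type) (A : V → V → Prop) : Prop :=
  ∃ φ : ℕ → V, (∀ i j, i < k → j < k → φ i = φ j → i = j) ∧
    ∀ i j, i < k → j < k → i ≠ j → c i j = 1 → A (φ i) (φ j)

/-- the partial graph does not occur in a counterexample -/
def Ref (s : ℕ × ℕ) : Prop :=
  ∀ (c : ℕ → ℕ → ℕ), Sh s.1 s.2 c → ∀ (V : Type) [Fintype V] [DecidableEq V]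
    (A : V → V → Prop) [DecidableRel A], Cx V A → ¬ Occ s.1 c V A

/-! ### the checker -/

/-- entry `i j` -/
def ent (M i j : ℕ) : ℕ :=
  Nat.mod (Nat.shiftRight M (Nat.add (Nat.mul 288 i) (Nat.mul 16 j))) 65536

/-- `2 ^ 288` -/
def big : ℕ := 497323236409786642155382248146820840100456150797347717440463976893159497012533375533056

/-- row `i` -/
def row (M i : ℕ) : ℕ := Nat.mod (Nat.shiftRight M (Nat.mul 288 i)) big

/-- closed degree of `i` -/
def cdeg (M i : ℕ) : ℕ := Nat.mod (row M i) 65535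

/-- add the edge `i j` -/
def addE (M i j : ℕ) : ℕ :=
  Nat.add M (Nat.add (Nat.shiftLeft 1 (Nat.add (Nat.mul 288 i) (Nat.mul 16 j)))
    (Nat.shiftLeft 1 (Nat.add (Nat.mul 288 j) (Nat.mul 16 i))))

/-- add the label `k` -/
def addV (M k : ℕ) : ℕ := Nat.add M (Nat.shiftLeft 1 (Nat.mul 304 k))

/-- sum of multiples of rows of completed labels different from `a` and `b`; each entry of the
certificate `C` has a label (5 bits) and a coefficient (11 bits) -/
def fold (M a b : ℕ) : ℕ → ℕ → ℕ → Option ℕ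
  | 0, _, P => some P
  | n + 1, C, P =>
    bif (Nat.beq (cdeg M (Nat.mod C 32)) 4 && (!(Nat.beq (Nat.mod C 32) a) &&
        !(Nat.beq (Nat.mod C 32) b))) then
      fold M a b n (Nat.shiftRight C 16)
        (Nat.add P (Nat.mul (Nat.mod (Nat.shiftRight C 5) 2048) (row M (Nat.mod C 32))))
    else none

/-- zero certificate: `P = Q + c * 65536 ^ v`; fields `v` (5), `c` (11), `np` (5), `nq` (5),
entries (16 each) -/
def zeroC (k M w : ℕ) : Bool :=
  Nat.blt (Nat.mod w 32) k && (!(Nat.beq (Nat.mod (Nat.shiftRight w 5) 2048) 0) &&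
  match fold M 31 31 (Nat.mod (Nat.shiftRight w 16) 32) (Nat.shiftRight w 26) 0,
    fold M 31 31 (Nat.mod (Nat.shiftRight w 21) 32)
      (Nat.shiftRight w (Nat.add 26 (Nat.mul 16 (Nat.mod (Nat.shiftRight w 16) 32)))) 0 with
  | some P, some Q => Nat.beq P (Nat.add Q (Nat.shiftLeft (Nat.mod (Nat.shiftRight w 5) 2048)
      (Nat.mul 16 (Nat.mod w 32))))
  | _, _ => false)

/-- dependency certificate: `d * row a + P = Q`, nothing at `b`; fields `a` (5), `d` (11),
`np` (5), `nq` (5), `b` (5), entries (16 each) -/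
def depC (k M w : ℕ) : Bool :=
  Nat.beq (cdeg M (Nat.mod w 32)) 4 && (!(Nat.beq (Nat.mod (Nat.shiftRight w 5) 2048) 0) &&
  (!(Nat.beq (Nat.mod w 32) (Nat.mod (Nat.shiftRight w 26) 32)) &&
  ((Nat.blt (Nat.mod (Nat.shiftRight w 26) 32) k || Nat.blt k 18) &&
  match fold M (Nat.mod w 32) (Nat.mod (Nat.shiftRight w 26) 32)
      (Nat.mod (Nat.shiftRight w 16) 32) (Nat.shiftRight w 31) 0,
    fold M (Nat.mod w 32) (Nat.mod (Nat.shiftRight w 26) 32) (Nat.mod (Nat.shiftRight w 21) 32)
      (Nat.shiftRight w (Nat.add 31 (Nat.mul 16 (Nat.mod (Nat.shiftRight w 16) 32)))) 0 with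
  | some P, some Q => Nat.beq (Nat.add (Nat.mul (Nat.mod (Nat.shiftRight w 5) 2048)
      (row M (Nat.mod w 32))) P) Q
  | _, _ => false)))

/-- digit `i` of a map -/
def mp (F i : ℕ) : ℕ := Nat.mod (Nat.shiftRight F (Nat.mul 5 i)) 32

/-- the edges of a pattern (10 bits each) are mapped to edges -/
def embE (M F : ℕ) : ℕ → ℕ → Bool
  | 0, E => Nat.beq E 0
  | n + 1, E => Nat.beq E 0 || ((!(Nat.beq (mp F (Nat.mod E 32))
      (mp F (Nat.mod (Nat.shiftRight E 5) 32))) && Nat.beq (ent M (mp F (Nat.mod E 32))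
      (mp F (Nat.mod (Nat.shiftRight E 5) 32))) 1) && embE M F n (Nat.shiftRight E 10))

/-- the first `n` digits of a map are different -/
def injF (F : ℕ) : ℕ → ℕ → Bool
  | 0, _ => true
  | n + 1, m => Nat.beq (Nat.mod (Nat.shiftRight m (mp F n)) 2) 0 &&
      injF F n (Nat.add m (Nat.shiftLeft 1 (mp F n)))

/-- embedding certificate of the pattern `p` (`k` in 5 bits, then the edges) by the map `F`; the
bits `≥ k` of the mask are set at the beginning, so all images are `< k` -/
def embC (k M p F : ℕ) : Bool :=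
  injF F (Nat.mod p 32) (Nat.sub 4294967296 (Nat.shiftLeft 1 k)) &&
    (Nat.ble (Nat.mod p 32) k && embE M F 27 (Nat.shiftRight p 5))

/-- candidates -/
def cands (M i : ℕ) : ℕ → List ℕ
  | 0 => []
  | j + 1 => bif (Nat.beq (ent M i j) 0 && Nat.blt (cdeg M j) 4) then j :: cands M i j
      else cands M i j

/-- pairs -/
def prs (M i k : ℕ) : List ℕ → List (ℕ × ℕ) → List (ℕ × ℕ)
  | [], r => r
  | j :: l, r => List.foldr (fun j' t => (k, addE (addE M i j) i j') :: t) (prs M i k l r) l

/-- children of the state when label `i` is completed -/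
def kids (k M i : ℕ) (r : List (ℕ × ℕ)) : List (ℕ × ℕ) :=
  bif Nat.beq (cdeg M i) 3 then
    List.foldr (fun j t => (k, addE M i j) :: t)
      (bif Nat.blt k 18 then (Nat.succ k, addE (addV M k) i k) :: r else r) (cands M i k)
  else
    prs M i k (cands M i k)
      (bif Nat.blt k 18 then
        List.foldr (fun j t => (Nat.succ k, addE (addE (addV M k) i k) i j) :: t)
          (bif Nat.blt (Nat.succ k) 18 then (Nat.succ (Nat.succ k),
            addE (addE (addV (addV M k) (Nat.succ k)) i k) i (Nat.succ k)) :: r else r)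
          (cands M i k)
      else r)

/-- the main loop: `ws` are the codes, `st` the states still to be refuted -/
def run (tab : ℕ → ℕ) (n : ℕ) : List ℕ → List (ℕ × ℕ) → Bool
  | [], [] => true
  | [], _ :: _ => false
  | _ :: _, [] => false
  | w :: ws, (k, M) :: st =>
    bif Nat.beq (Nat.mod w 4) 0 then
      -- branch at `i`
      Nat.blt (Nat.shiftRight w 2) k && ((Nat.beq (cdeg M (Nat.shiftRight w 2)) 3 ||
        Nat.beq (cdeg M (Nat.shiftRight w 2)) 2) &&
        run tab n ws (kids k M (Nat.shiftRight w 2) st))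
    else bif Nat.beq (Nat.mod w 4) 1 then
      zeroC k M (Nat.shiftRight w 2) && run tab n ws st
    else bif Nat.beq (Nat.mod w 4) 2 then
      depC k M (Nat.shiftRight w 2) && run tab n ws st
    else
      Nat.blt (Nat.mod (Nat.shiftRight w 2) 65536) n &&
        (embC k M (tab (Nat.mod (Nat.shiftRight w 2) 65536)) (Nat.shiftRight w 18) &&
          run tab n ws st)

/-- the state of a pattern: edges are added to the empty graph on `k` labels; `none` if an entry is
not an admissible new edge -/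
def bldV : ℕ → ℕ → ℕ
  | 0, M => M
  | n + 1, M => bldV n (addV M n)

/-- add the edges of a pattern -/
def bldE (k : ℕ) : ℕ → ℕ → ℕ → Option ℕ
  | 0, E, M => bif Nat.beq E 0 then some M else none
  | n + 1, E, M => bif Nat.beq E 0 then some M else
      bif (Nat.blt (Nat.mod E 32) k && (Nat.blt (Nat.mod (Nat.shiftRight E 5) 32) k &&
        Nat.beq (ent M (Nat.mod E 32) (Nat.mod (Nat.shiftRight E 5) 32)) 0)) then
        bldE k n (Nat.shiftRight E 10)
          (addE M (Nat.mod E 32) (Nat.mod (Nat.shiftRight E 5) 32))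
      else none

/-- check of one item: the pattern `tab n` with the codes `ws` -/
def item (tab : ℕ → ℕ) (n : ℕ) (ws : List ℕ) : Bool :=
  Nat.ble (Nat.mod (tab n) 32) 18 &&
  match bldE (Nat.mod (tab n) 32) 27 (Nat.shiftRight (tab n) 5) (bldV (Nat.mod (tab n) 32) 0) with
  | some M => run tab n ws [(Nat.mod (tab n) 32, M)]
  | none => false

/-- check of the items `n, n + 1, ...` -/
def items (tab : ℕ → ℕ) : ℕ → List (List ℕ) → Bool
  | _, [] => true
  | n, ws :: l => item tab n ws && items tab (Nat.succ n) l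

/-- edges of a pattern code -/
def edg : ℕ → ℕ → List (ℕ × ℕ)
  | 0, _ => []
  | n + 1, E => bif Nat.beq E 0 then [] else
      (Nat.mod E 32, Nat.mod (Nat.shiftRight E 5) 32) :: edg n (Nat.shiftRight E 10)

/-- the end points of the edges are labels -/
def WF (p : ℕ) : Prop :=
  ∀ e ∈ edg 27 (Nat.shiftRight p 5), e.1 < Nat.mod p 32 ∧ e.2 < Nat.mod p 32

/-- the pattern is well formed and does not occur in a counterexample -/
def RefP (p : ℕ) : Prop :=
  WF p ∧ ∀ (V : Type) [Fintype V] [DecidableEq V] (A : V → V → Prop) [DecidableRel A], Cx V A →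
    ¬ ∃ φ : ℕ → V, (∀ i j, i < Nat.mod p 32 → j < Nat.mod p 32 → φ i = φ j → i = j) ∧
      ∀ e ∈ edg 27 (Nat.shiftRight p 5), A (φ e.1) (φ e.2)

/-! ### lookup table -/

/-- binary tree of patterns -/
inductive T where
  | l : T
  | n : T → ℕ → T → T

/-- `get t m`: at `m = 0` the root, else the subtree given by the last bit of `m - 1` -/
def T.get : T → ℕ → ℕ → ℕ
  | .l, _, _ => 31
  | .n _ p _, 0, _ => p
  | .n a p b, f + 1, m => bif Nat.beq m 0 then p else
      bif Nat.beq (Nat.mod m 2) 1 then a.get f (Nat.shiftRight (Nat.sub m 1) 1)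
      else b.get f (Nat.shiftRight (Nat.sub m 1) 1)

end Pool.Agent.J6H77.N18
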