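import Pool.Agent.J6H77.N18.Stm

/-!
# Project N18 (helper77, MP_a38f8e_co), module FOLD (helper94)
-/

set_option autoImplicit false

namespace Pool.Agent.J6H77.N18

open Finset

theorem t_Fold : S_Fold := by
  intro M a b n
  induction n with
  | zero =>
    intro C P P' _ h
    have h1 : P = P' := Option.some.inj h
    exact ⟨fun _ => 0, fun i hi => absurd rfl hi, by simp, by simp [h1]⟩
  | succ n ih =>
    intro C P P' hd h
    obtain ⟨i, hi⟩ : ∃ i, i = Nat.mod C 32 := ⟨_, rfl⟩
    obtain ⟨m, hm⟩ : ∃ m, m = Nat.mod (Nat.shiftRight C 5) 2048 := ⟨_, rfl⟩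
    have hm2 : m ≤ 2047 := by
      have : m < 2048 := by
        rw [hm]
        exact Nat.mod_lt _ (by norm_num)
      omega
    have hs : fold M a b (n + 1) C P = bif (Nat.beq (cdeg M i) 4 && (!(Nat.beq i a) &&
        !(Nat.beq i b))) then fold M a b n (Nat.shiftRight C 16) (P + m * row M i) else none := by
      rw [hi, hm]
      rfl
    rw [hs] at h
    cases hc : (Nat.beq (cdeg M i) 4 && (!(Nat.beq i a) && !(Nat.beq i b)))
    · rw [hc] at h
      exact absurd h (by simp)
    · rw [hc] at h
      have hc1 : cdeg M i = 4 ∧ i ≠ a ∧ i ≠ b := by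
        simp only [Bool.and_eq_true, Bool.not_eq_true', Nat.beq_eq] at hc
        refine ⟨hc.1, ?_, ?_⟩
        · intro e
          have := hc.2.1
          rw [e, Nat.beq_refl] at this
          exact absurd this (by simp)
        · intro e
          have := hc.2.2
          rw [e, Nat.beq_refl] at this
          exact absurd this (by simp)
      have hi18 : i < 18 := by
        by_contra hcon
        have := hd i (by omega)
        omega
      obtain ⟨p, hp1, hp2, hp3⟩ := ih (Nat.shiftRight C 16) (P + m * row M i) P' hd h
      refine ⟨fun j => p j + if j = i then m else 0, ?_, ?_, ?_⟩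
      · intro j hj
        by_cases hji : j = i
        · rw [hji]
          exact hc1
        · apply hp1
          simpa [hji] using hj
      · rw [sum_add_distrib, sum_ite_eq' (range 18) i (fun _ => m), if_pos (mem_range.mpr hi18)]
        calc ∑ i ∈ range 18, p i + m ≤ 2047 * n + 2047 := Nat.add_le_add hp2 hm2
          _ = 2047 * (n + 1) := by ring
      · rw [hp3]
        simp only [add_mul, sum_add_distrib, ite_mul, zero_mul]
        rw [sum_ite_eq' (range 18) i (fun j => m * row M j), if_pos (mem_range.mpr hi18)]
        ring

end Pool.Agent.J6H77.N18
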