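import Pool.Agent.J6H77.N18.Stm
import Pool.Agent.J6H63.N18.EMB

/-!
# Module ITEM: soundness of the check of an item

Written by helper78 for the project of helper77.
-/

set_option autoImplicit false

namespace Pool.Agent.J6H77.N18

open Finset

theorem run_ref (hZ : S_Zero) (hP : S_Dep) (hE : S_Emb) (hK : S_Kids) (tab : ℕ → ℕ) (n : ℕ)
    (hn : ∀ m, m < n → RefP (tab m)) :
    ∀ (ws : List ℕ) (st : List (ℕ × ℕ)), run tab n ws st = true → ∀ s ∈ st, Ref s
  | [], [], _ => by simp
  | [], _ :: _, h => by simp [run] at h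
  | _ :: _, [], _ => by simp
  | w :: ws, (k, M) :: st, h => by
    have ih := run_ref hZ hP hE hK tab n hn ws
    rw [run] at h
    by_cases h0 : Nat.beq (Nat.mod w 4) 0 = true
    · rw [h0, cond_true] at h
      simp only [Bool.and_eq_true, Bool.or_eq_true] at h
      obtain ⟨h1, h2, h3⟩ := h
      have hi : Nat.shiftRight w 2 < k := by
        have := h1
        simp only [Nat.blt] at this
        exact Nat.le_of_ble_eq_true this
      have hc : cdeg M (Nat.shiftRight w 2) = 3 ∨ cdeg M (Nat.shiftRight w 2) = 2 := by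
        rcases h2 with h2 | h2
        · exact Or.inl (Nat.eq_of_beq_eq_true h2)
        · exact Or.inr (Nat.eq_of_beq_eq_true h2)
      have := hK k M (Nat.shiftRight w 2) st hi hc (ih _ h3)
      intro s hs
      rcases List.mem_cons.1 hs with rfl | hs
      · exact this.1
      · exact this.2 s hs
    · rw [Bool.not_eq_true] at h0
      rw [h0, cond_false] at h
      by_cases h1 : Nat.beq (Nat.mod w 4) 1 = true
      · rw [h1, cond_true] at h
        simp only [Bool.and_eq_true] at h
        intro s hs
        rcases List.mem_cons.1 hs with rfl | hs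
        · exact hZ _ _ _ h.1
        · exact ih st h.2 s hs
      · rw [Bool.not_eq_true] at h1
        rw [h1, cond_false] at h
        by_cases h2 : Nat.beq (Nat.mod w 4) 2 = true
        · rw [h2, cond_true] at h
          simp only [Bool.and_eq_true] at h
          intro s hs
          rcases List.mem_cons.1 hs with rfl | hs
          · exact hP _ _ _ h.1
          · exact ih st h.2 s hs
        · rw [Bool.not_eq_true] at h2
          rw [h2, cond_false] at h
          simp only [Bool.and_eq_true] at h
          obtain ⟨ha, hb, hc⟩ := h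
          have hlt : Nat.mod (Nat.shiftRight w 2) 65536 < n := by
            have := ha
            simp only [Nat.blt] at this
            exact Nat.le_of_ble_eq_true this
          intro s hs
          rcases List.mem_cons.1 hs with rfl | hs
          · exact hE _ _ _ _ hb (hn _ hlt)
          · exact ih st hc s hs

/-- the number with the labels `< n` and no edges -/
def lab : ℕ → ℕ
  | 0 => 0
  | n + 1 => addV (lab n) n

theorem addV_eq (M k : ℕ) : addV M k = M + 2 ^ (304 * k) := by
  unfold addV
  show M + 1 <<< (304 * k) = _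
  rw [Nat.shiftLeft_eq, one_mul]

theorem bldV_eq (n : ℕ) : ∀ M : ℕ, bldV n M = M + lab n := by
  induction n with
  | zero => intro M; simp [bldV, lab]
  | succ n ih =>
    intro M
    rw [bldV, ih, lab, addV_eq, addV_eq]
    ring

theorem lab_sh (hA : S_Add) : ∀ n : ℕ, n ≤ 18 → ∃ c : ℕ → ℕ → ℕ, Sh n (lab n) c ∧
    ∀ i j, i ≠ j → c i j = 0
  | 0, _ => ⟨fun _ _ => 0, hA.2.2, fun _ _ _ => rfl⟩
  | n + 1, hn => by
    obtain ⟨c, hc, h0⟩ := lab_sh hA n (by omega)
    refine ⟨cV c n, hA.2.1 n (lab n) c hc (by omega), fun i j hij => ?_⟩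
    unfold cV
    rw [if_neg (by rintro ⟨rfl, rfl⟩; exact hij rfl)]
    exact h0 i j hij

theorem bldE_ref (hD : S_Dig) (hA : S_Add) (k : ℕ) (V : Type) (A : V → V → Prop)
    (hs : ∀ u v, A u v → A v u) (φ : ℕ → V) :
    ∀ (n E M M' : ℕ) (c : ℕ → ℕ → ℕ), Sh k M c →
      (∀ i j, i < k → j < k → i ≠ j → c i j = 1 → A (φ i) (φ j)) →
      (∀ e ∈ edg n E, A (φ e.1) (φ e.2)) → bldE k n E M = some M' →
      ∃ c' : ℕ → ℕ → ℕ, Sh k M' c' ∧
        ∀ i j, i < k → j < k → i ≠ j → c' i j = 1 → A (φ i) (φ j)
  | 0, E, M, M', c, hc, hcA, _, h => by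
    rw [bldE] at h
    by_cases hE : Nat.beq E 0 = true
    · rw [hE, cond_true] at h
      obtain rfl := Option.some.inj h
      exact ⟨c, hc, hcA⟩
    · rw [Bool.not_eq_true] at hE
      rw [hE, cond_false] at h
      exact absurd h (by simp)
  | n + 1, E, M, M', c, hc, hcA, he, h => by
    rw [bldE] at h
    by_cases hE : Nat.beq E 0 = true
    · rw [hE, cond_true] at h
      obtain rfl := Option.some.inj h
      exact ⟨c, hc, hcA⟩
    · rw [Bool.not_eq_true] at hE
      rw [hE, cond_false] at h
      rw [edg, hE, cond_false] at he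
      by_cases hC : (Nat.blt (Nat.mod E 32) k && (Nat.blt (Nat.mod (Nat.shiftRight E 5) 32) k &&
        Nat.beq (ent M (Nat.mod E 32) (Nat.mod (Nat.shiftRight E 5) 32)) 0)) = true
      · rw [hC, cond_true] at h
        simp only [Bool.and_eq_true] at hC
        obtain ⟨h1, h2, h3⟩ := hC
        have hi : Nat.mod E 32 < k := by
          have := h1
          simp only [Nat.blt] at this
          exact Nat.le_of_ble_eq_true this
        have hj : Nat.mod (Nat.shiftRight E 5) 32 < k := by
          have := h2
          simp only [Nat.blt] at this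
          exact Nat.le_of_ble_eq_true this
        have hz : ent M (Nat.mod E 32) (Nat.mod (Nat.shiftRight E 5) 32) = 0 :=
          Nat.eq_of_beq_eq_true h3
        have hk18 := hc.k18
        have hent := (hD k M c hc).1 (Nat.mod E 32) (Nat.mod (Nat.shiftRight E 5) 32)
          (by omega) (by omega)
        have hc0 : c (Nat.mod E 32) (Nat.mod (Nat.shiftRight E 5) 32) = 0 := by
          rw [← hent, hz]
        refine bldE_ref hD hA k V A hs φ n _ _ M' (cE c (Nat.mod E 32)
          (Nat.mod (Nat.shiftRight E 5) 32)) (hA.1 k M c _ _ hc hi hj hc0) ?_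
          (fun e hem => he e (List.mem_cons_of_mem _ hem)) h
        intro i j hi' hj' hij hcij
        have hA1 : A (φ (Nat.mod E 32)) (φ (Nat.mod (Nat.shiftRight E 5) 32)) :=
          he _ (List.mem_cons_self ..)
        unfold cE at hcij
        by_cases hh : (i = Nat.mod E 32 ∧ j = Nat.mod (Nat.shiftRight E 5) 32) ∨
            (i = Nat.mod (Nat.shiftRight E 5) 32 ∧ j = Nat.mod E 32)
        · rcases hh with ⟨rfl, rfl⟩ | ⟨rfl, rfl⟩
          · exact hA1
          · exact hs _ _ hA1
        · rw [if_neg hh] at hcij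
          exact hcA i j hi' hj' hij hcij
      · rw [Bool.not_eq_true] at hC
        rw [hC, cond_false] at h
        exact absurd h (by simp)

theorem item_ref (hD : S_Dig) (hA : S_Add) (hZ : S_Zero) (hP : S_Dep) (hE : S_Emb)
    (hK : S_Kids) (tab : ℕ → ℕ) (n : ℕ) (ws : List ℕ) (h : item tab n ws = true)
    (hn : ∀ m, m < n → RefP (tab m)) : RefP (tab n) := by
  unfold item at h
  rw [Bool.and_eq_true] at h
  obtain ⟨h1, h2⟩ := h
  have hk : Nat.mod (tab n) 32 ≤ 18 := Nat.le_of_ble_eq_true h1
  revert h2
  cases hb : bldE (Nat.mod (tab n) 32) 27 (Nat.shiftRight (tab n) 5)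
      (bldV (Nat.mod (tab n) 32) 0) with
  | none => intro h2; simp at h2
  | some M =>
    intro h2
    have hR : Ref (Nat.mod (tab n) 32, M) :=
      run_ref hZ hP hE hK tab n hn ws _ h2 _ (List.mem_singleton_self _)
    refine ⟨Pool.Agent.J6H63.N18.wf_of_bldE hb, ?_⟩
    intro V _ _ A _ hCx
    rintro ⟨φ, hinj, hedg⟩
    rw [bldV_eq, zero_add] at hb
    obtain ⟨c, hc, hc0⟩ := lab_sh hA _ hk
    obtain ⟨c', hc', hA'⟩ := bldE_ref hD hA (Nat.mod (tab n) 32) V A hCx.symm φ 27
      (Nat.shiftRight (tab n) 5) (lab (Nat.mod (tab n) 32)) M c hc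
      (fun i j _ _ hij hcij => by rw [hc0 i j hij] at hcij; exact absurd hcij (by norm_num))
      hedg hb
    exact hR c' hc' V A hCx ⟨φ, hinj, hA'⟩

/-- Module ITEM -/
theorem t_Item (hD : S_Dig) (hA : S_Add) (hZ : S_Zero) (hP : S_Dep) (hE : S_Emb)
    (hK : S_Kids) : S_Item := by
  intro tab n l
  induction l generalizing n with
  | nil =>
    intro _ hn m hm
    exact hn m (by simpa using hm)
  | cons ws l ih =>
    intro h hn m hm
    rw [items, Bool.and_eq_true] at h
    have h1 := item_ref hD hA hZ hP hE hK tab n ws h.1 hn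
    refine ih (Nat.succ n) h.2 (fun m' hm' => ?_) m (by
      rw [List.length_cons] at hm
      omega)
    rcases Nat.lt_succ_iff_lt_or_eq.1 hm' with h' | h'
    · exact hn m' h'
    · rw [h']
      exact h1

end Pool.Agent.J6H77.N18
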