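import Pool.Agent.J6H77.N18.Stm

/-!
# Module KIDS: the children of a state
-/

set_option autoImplicit false

namespace Pool.Agent.J6H77.N18

open Finset

namespace Kids

/-! ### lists -/

theorem foldr_eq {α β : Type} (f : α → β) (b : List β) (l : List α) :
    List.foldr (fun j t => f j :: t) b l = l.map f ++ b := by
  induction l with
  | nil => rfl
  | cons a l ih => simp [ih]

theorem mem_cands {M i j : ℕ} : ∀ {n : ℕ}, j < n → ent M i j = 0 → cdeg M j < 4 → j ∈ cands M i n := by
  intro n
  induction n with
  | zero => intro h; omega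
  | succ n ih =>
    intro h h1 h2
    unfold cands
    rcases Nat.lt_succ_iff_lt_or_eq.1 h with h' | rfl
    · have := ih h' h1 h2
      cases (Nat.beq (ent M i n) 0 && Nat.blt (cdeg M n) 4) with
      | true => exact List.mem_cons_of_mem _ this
      | false => exact this
    · have e1 : Nat.beq (ent M i j) 0 = true := by rw [h1]; rfl
      have e2 : Nat.blt (cdeg M j) 4 = true := Nat.blt_eq ▸ h2
      rw [e1, e2]
      exact List.mem_cons_self

theorem cands_lt {M i j : ℕ} : ∀ {n : ℕ}, j ∈ cands M i n → j < n := by
  intro n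
  induction n with
  | zero => intro h; simp [cands] at h
  | succ n ih =>
    intro h
    unfold cands at h
    cases hb : (Nat.beq (ent M i n) 0 && Nat.blt (cdeg M n) 4) with
    | true =>
      rw [hb] at h
      rcases List.mem_cons.1 h with rfl | h
      · omega
      · exact (ih h).trans (Nat.lt_succ_self n)
    | false =>
      rw [hb] at h
      exact (ih h).trans (Nat.lt_succ_self n)

theorem cands_pairwise {M i : ℕ} : ∀ n : ℕ, (cands M i n).Pairwise (fun a b => b < a) := by
  intro n
  induction n with
  | zero => exact List.Pairwise.nil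
  | succ n ih =>
    unfold cands
    cases (Nat.beq (ent M i n) 0 && Nat.blt (cdeg M n) 4) with
    | true => exact List.Pairwise.cons (fun a ha => cands_lt ha) ih
    | false => exact ih

theorem prs_base {M i k : ℕ} {s : ℕ × ℕ} : ∀ (l : List ℕ) (r : List (ℕ × ℕ)), s ∈ r → s ∈ prs M i k l r := by
  intro l
  induction l with
  | nil => intro r h; exact h
  | cons a l ih =>
    intro r h
    unfold prs
    rw [foldr_eq (fun j' => (k, addE (addE M i a) i j'))]
    exact List.mem_append_right _ (ih r h)

theorem prs_pair {M i k j j' : ℕ} (r : List (ℕ × ℕ)) : ∀ (l : List ℕ), l.Pairwise (fun a b => b < a) →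
    j ∈ l → j' ∈ l → j' < j → (k, addE (addE M i j) i j') ∈ prs M i k l r := by
  intro l
  induction l with
  | nil => intro _ h; simp at h
  | cons a l ih =>
    intro hp h1 h2 h3
    unfold prs
    rw [foldr_eq (fun j' => (k, addE (addE M i a) i j'))]
    rw [List.pairwise_cons] at hp
    rcases List.mem_cons.1 h1 with hja | hjl
    · subst hja
      rcases List.mem_cons.1 h2 with hja' | hjl'
      · omega
      · exact List.mem_append_left _ (List.mem_map.2 ⟨j', hjl', rfl⟩)
    · rcases List.mem_cons.1 h2 with hja' | hjl'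
      · have h5 := hp.1 j hjl
        omega
      · exact List.mem_append_right _ (ih hp.2 hjl hjl' h3)

theorem kids3 {k M i : ℕ} {r : List (ℕ × ℕ)} (h : cdeg M i = 3) :
    kids k M i r = (cands M i k).map (fun j => (k, addE M i j)) ++
      (if k < 18 then (k + 1, addE (addV M k) i k) :: r else r) := by
  unfold kids
  have e1 : Nat.beq (cdeg M i) 3 = true := by rw [h]; rfl
  rw [e1, foldr_eq (fun j => (k, addE M i j))]
  simp only [cond_true]
  congr 1
  split_ifs with h2
  · have e2 : Nat.blt k 18 = true := Nat.blt_eq ▸ h2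
    rw [e2]
    rfl
  · have e2 : Nat.blt k 18 = false := by
      cases hb : Nat.blt k 18 with
      | true => exact absurd (Nat.blt_eq ▸ hb) h2
      | false => rfl
    rw [e2]
    rfl

theorem kids2 {k M i : ℕ} {r : List (ℕ × ℕ)} (h : cdeg M i = 2) :
    kids k M i r = prs M i k (cands M i k)
      (if k < 18 then
        (cands M i k).map (fun j => (k + 1, addE (addE (addV M k) i k) i j)) ++
          (if k + 1 < 18 then (k + 2, addE (addE (addV (addV M k) (k + 1)) i k) i (k + 1)) :: r else r)
      else r) := by
  unfold kids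
  have e1 : Nat.beq (cdeg M i) 3 = false := by rw [h]; rfl
  rw [e1]
  simp only [cond_false]
  congr 1
  have hblt : ∀ a : ℕ, Nat.blt a 18 = decide (a < 18) := by
    intro a
    by_cases ha : a < 18
    · rw [decide_eq_true ha]; exact Nat.blt_eq ▸ ha
    · rw [decide_eq_false ha]
      cases hb : Nat.blt a 18 with
      | true => exact absurd (Nat.blt_eq ▸ hb) ha
      | false => rfl
  rw [foldr_eq (fun j => (Nat.succ k, addE (addE (addV M k) i k) i j)), hblt, hblt]
  by_cases h1 : k < 18
  · rw [decide_eq_true h1, if_pos h1, cond_true]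
    congr 1
    by_cases h2 : k + 1 < 18
    · rw [decide_eq_true (show Nat.succ k < 18 from h2), if_pos h2, cond_true]
    · rw [decide_eq_false (show ¬ Nat.succ k < 18 from h2), if_neg h2, cond_false]
  · rw [decide_eq_false h1, if_neg h1, cond_false]

/-! ### embeddings -/

/-- an embedding of a partial graph -/
def Em (k : ℕ) (c : ℕ → ℕ → ℕ) {V : Type} (A : V → V → Prop) (φ : ℕ → V) : Prop :=
  (∀ i j, i < k → j < k → φ i = φ j → i = j) ∧
    ∀ i j, i < k → j < k → i ≠ j → c i j = 1 → A (φ i) (φ j)

theorem Em.addE {k : ℕ} {c : ℕ → ℕ → ℕ} {V : Type} {A : V → V → Prop} {φ : ℕ → V} (h : Em k c A φ)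
    (hs : ∀ u v, A u v → A v u) {i j : ℕ} (hA : A (φ i) (φ j)) : Em k (cE c i j) A φ := by
  refine ⟨h.1, fun a b ha hb hab h1 => ?_⟩
  unfold cE at h1
  split_ifs at h1 with h2
  · rcases h2 with ⟨rfl, rfl⟩ | ⟨rfl, rfl⟩
    · exact hA
    · exact hs _ _ hA
  · exact h.2 a b ha hb hab h1

theorem Em.addV {k M : ℕ} {c : ℕ → ℕ → ℕ} {V : Type} {A : V → V → Prop} {φ : ℕ → V} (h : Em k c A φ)
    (hc : Sh k M c) {w : V} (hw : ∀ a, a < k → φ a ≠ w) :
    Em (k + 1) (cV c k) A (Function.update φ k w) := by
  have e : ∀ a, a < k → Function.update φ k w a = φ a := fun a ha =>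
    Function.update_of_ne (by omega) _ _
  refine ⟨fun a b ha hb hab => ?_, fun a b ha hb hab h1 => ?_⟩
  · rcases Nat.lt_succ_iff_lt_or_eq.1 ha with ha | rfl <;>
      rcases Nat.lt_succ_iff_lt_or_eq.1 hb with hb | rfl
    · rw [e a ha, e b hb] at hab
      exact h.1 a b ha hb hab
    · rw [e a ha, Function.update_self] at hab
      exact absurd hab (hw a ha)
    · rw [e b hb, Function.update_self] at hab
      exact absurd hab.symm (hw b hb)
    · rfl
  · unfold cV at h1
    rw [if_neg (by rintro ⟨rfl, h2⟩; exact hab h2.symm)] at h1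
    rcases Nat.lt_succ_iff_lt_or_eq.1 ha with ha | rfl
    · rcases Nat.lt_succ_iff_lt_or_eq.1 hb with hb | rfl
      · rw [e a ha, e b hb]
        exact h.2 a b ha hb hab h1
      · rw [hc.sy, hc.out _ _ le_rfl] at h1
        omega
    · rw [hc.out _ _ le_rfl] at h1
      omega

theorem contra {k M : ℕ} {c : ℕ → ℕ → ℕ} {V : Type} [Fintype V] [DecidableEq V] {A : V → V → Prop}
    [DecidableRel A] {φ : ℕ → V} (hR : Ref (k, M)) (hc : Sh k M c) (hA : Cx V A) (h : Em k c A φ) : False :=
  hR c hc V A hA ⟨φ, h.1, h.2⟩

/-! ### degrees -/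

/-- the neighbours of `i` -/
def nbI (k : ℕ) (c : ℕ → ℕ → ℕ) (i : ℕ) : Finset ℕ := (range k).filter fun j => j ≠ i ∧ c i j = 1

theorem sum_eq {k M : ℕ} {c : ℕ → ℕ → ℕ} (hc : Sh k M c) {i : ℕ} (hi : i < k) :
    ∑ j ∈ range 18, c i j = 1 + (nbI k c i).card := by
  have h1 : ∑ j ∈ range 18, c i j = ∑ j ∈ range k, c i j := by
    symm
    refine sum_subset (range_subset_range.2 hc.k18) fun j _ hj => ?_
    rw [mem_range, not_lt] at hj
    rw [hc.sy, hc.out j i hj]
  rw [h1, ← add_sum_erase _ _ (mem_range.2 hi), hc.di i hi, nbI, card_filter]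
  congr 1
  have h2 : ∑ j ∈ range k, (if j ≠ i ∧ c i j = 1 then 1 else 0) =
      ∑ j ∈ (range k).erase i, (if j ≠ i ∧ c i j = 1 then 1 else 0) := by
    symm
    refine sum_subset (erase_subset _ _) fun j hj hj' => ?_
    have : j = i := by
      by_contra h
      exact hj' (mem_erase.2 ⟨h, hj⟩)
    rw [if_neg]
    rintro ⟨h, _⟩
    exact h this
  rw [h2]
  refine sum_congr rfl fun j hj => ?_
  have h3 := (mem_erase.1 hj).1
  have h4 := hc.le1 i j
  split_ifs with h5
  · exact h5.2
  · have : c i j ≠ 1 := fun h => h5 ⟨h3, h⟩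
    omega

theorem image_sub {k M : ℕ} {c : ℕ → ℕ → ℕ} {V : Type} [Fintype V] [DecidableEq V] {A : V → V → Prop}
    [DecidableRel A] {φ : ℕ → V} (_hc : Sh k M c) (h : Em k c A φ) {i : ℕ} (hi : i < k) :
    (nbI k c i).image φ ⊆ univ.filter (fun w => A (φ i) w) ∧
      ((nbI k c i).image φ).card = (nbI k c i).card := by
  constructor
  · intro w hw
    rw [mem_image] at hw
    obtain ⟨j, hj, rfl⟩ := hw
    rw [nbI, mem_filter, mem_range] at hj
    rw [mem_filter]
    exact ⟨mem_univ _, h.2 i j hi hj.1 (Ne.symm hj.2.1) hj.2.2⟩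
  · refine card_image_of_injOn fun a ha b hb hab => ?_
    rw [mem_coe, nbI, mem_filter, mem_range] at ha hb
    exact h.1 a b ha.1 hb.1 hab

end Kids

open Kids in
/-- Module KIDS. -/
theorem t_Kids (hD : S_Dig) (hA : S_Add) (hC : S_Comp) : S_Kids := by
  intro k M i r hi hd hk
  have hr : ∀ s ∈ r, s ∈ kids k M i r := by
    intro s hs
    rcases hd with hd | hd
    · rw [kids3 hd]
      refine List.mem_append_right _ ?_
      split_ifs
      · exact List.mem_cons_of_mem _ hs
      · exact hs
    · rw [kids2 hd]
      refine prs_base _ _ ?_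
      split_ifs
      · exact List.mem_append_right _ (List.mem_cons_of_mem _ hs)
      · exact List.mem_append_right _ hs
      · exact hs
  refine ⟨?_, fun s hs => hk s (hr s hs)⟩
  intro c hc V _ _ A _ hX hO
  obtain ⟨φ, hφ⟩ := hO
  have hE : Em k c A φ := hφ
  change Sh k M c at hc
  have hi18 : i < 18 := lt_of_lt_of_le hi hc.k18
  obtain ⟨hent, -, -, hcd, -⟩ := hD k M c hc
  set W : Finset V := univ.filter (fun w => A (φ i) w) \ (nbI k c i).image φ with hW
  have hWc : W.card = 3 - (nbI k c i).card := by
    rw [hW, card_sdiff_of_subset (image_sub hc hE hi).1, (image_sub hc hE hi).2, hX.deg]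
  have hnb : cdeg M i = 1 + (nbI k c i).card := by rw [hcd i hi18, sum_eq hc hi]
  have hWA : ∀ w ∈ W, A (φ i) w := by
    intro w hw
    rw [hW, mem_sdiff, mem_filter] at hw
    exact hw.1.2
  -- an element of `W` in the image
  have hWj : ∀ w ∈ W, ∀ j, j < k → φ j = w → j ≠ i ∧ c i j = 0 ∧ j ∈ cands M i k := by
    intro w hw j hj hjw
    have h1 := hWA w hw
    have h2 : j ≠ i := by
      rintro rfl
      rw [hjw] at h1
      exact hX.irr _ h1
    have h3 : c i j = 0 := by
      have h4 := hc.le1 i j
      have h5 : c i j ≠ 1 := by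
        intro h5
        rw [hW, mem_sdiff] at hw
        refine hw.2 (mem_image.2 ⟨j, ?_, hjw⟩)
        rw [nbI, mem_filter, mem_range]
        exact ⟨hj, h2, h5⟩
      omega
    have hj18 : j < 18 := lt_of_lt_of_le hj hc.k18
    refine ⟨h2, h3, mem_cands hj ?_ ?_⟩
    · rw [hent i j hi18 hj18, h3]
    · have h6 : cdeg M j = 1 + (nbI k c j).card := by rw [hcd j hj18, sum_eq hc hj]
      have h7 : (nbI k c j).card ≤ 3 := by
        have := card_le_card (image_sub hc hE hj).1
        rw [(image_sub hc hE hj).2, hX.deg] at this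
        exact this
      have h8 : cdeg M j ≠ 4 := by
        intro h8
        rw [hcd j hj18] at h8
        have h9 := (hC k M c V A φ hc hX hE.1 hE.2 j hj h8 (φ i)).1 (by
          rw [hjw]; exact hX.symm _ _ h1)
        obtain ⟨j', h10, h11, h12, h13⟩ := h9
        have h14 := hE.1 i j' hi h10 h13
        subst h14
        rw [hc.sy, h3] at h12
        omega
      omega
  -- the number of labels
  have hcount : ∀ S : Finset V, (∀ w ∈ S, ∀ j, j < k → φ j ≠ w) → k + S.card ≤ 18 := by
    intro S hS
    have h1 : ((range k).image φ).card = k := by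
      rw [card_image_of_injOn, card_range]
      intro a ha b hb hab
      rw [mem_coe, mem_range] at ha hb
      exact hE.1 a b ha hb hab
    have h2 : Disjoint ((range k).image φ) S := by
      rw [Finset.disjoint_left]
      intro w hw hw'
      rw [mem_image] at hw
      obtain ⟨j, hj, h⟩ := hw
      exact hS w hw' j (mem_range.1 hj) h
    have h3 := card_union_of_disjoint h2
    have h4 := card_le_univ ((range k).image φ ∪ S)
    rw [h3, h1, hX.card] at h4
    exact h4
  have hiV : ∀ w : V, Function.update φ k w i = φ i := fun w => Function.update_of_ne (by omega) _ _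
  rcases hd with hd | hd
  · -- one missing neighbour
    have hW1 : W.card = 1 := by omega
    obtain ⟨w, hw⟩ := card_eq_one.1 hW1
    have hwW : w ∈ W := by rw [hw]; exact mem_singleton_self w
    have hAw := hWA w hwW
    by_cases him : ∃ j, j < k ∧ φ j = w
    · obtain ⟨j, hj, hjw⟩ := him
      obtain ⟨h2, h3, h4⟩ := hWj w hwW j hj hjw
      have hR : Ref (k, addE M i j) := by
        refine hk _ ?_
        rw [kids3 hd]
        exact List.mem_append_left _ (List.mem_map.2 ⟨j, h4, rfl⟩)
      refine contra hR (hA.1 k M c i j hc hi hj h3) hX (hE.addE hX.symm ?_)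
      rw [hjw]; exact hAw
    · have hnot : ∀ j, j < k → φ j ≠ w := fun j hj h => him ⟨j, hj, h⟩
      have hk18 : k < 18 := by
        have := hcount {w} (by
          intro w' hw' j hj
          rw [mem_singleton] at hw'
          rw [hw']
          exact hnot j hj)
        rw [card_singleton] at this
        omega
      have hR : Ref (k + 1, addE (addV M k) i k) := by
        refine hk _ ?_
        rw [kids3 hd, if_pos hk18]
        exact List.mem_append_right _ List.mem_cons_self
      have hc1 := hA.2.1 k M c hc hk18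
      have h0 : cV c k i k = 0 := by
        unfold cV
        rw [if_neg (by omega), hc.sy, hc.out _ _ le_rfl]
      refine contra hR (hA.1 (k + 1) _ _ i k hc1 (by omega) (by omega) h0) hX
        ((hE.addV hc hnot).addE hX.symm ?_)
      rw [hiV, Function.update_self]
      exact hAw
  · -- two missing neighbours
    have hW2 : W.card = 2 := by omega
    obtain ⟨w1, w2, hne, hw⟩ := card_eq_two.1 hW2
    have hw1 : w1 ∈ W := by rw [hw]; simp
    have hw2 : w2 ∈ W := by rw [hw]; simp
    have hA1 := hWA w1 hw1
    have hA2 := hWA w2 hw2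
    -- both old
    have both : ∀ (u v : V) (j j' : ℕ), u ∈ W → v ∈ W → j < k → j' < k → φ j = u → φ j' = v → j' < j →
        False := by
      intro u v j j' hu hv hj hj' hju hjv hlt
      obtain ⟨h2, h3, h4⟩ := hWj u hu j hj hju
      obtain ⟨h2', h3', h4'⟩ := hWj v hv j' hj' hjv
      have hR : Ref (k, addE (addE M i j) i j') := by
        refine hk _ ?_
        rw [kids2 hd]
        exact prs_pair _ _ (cands_pairwise k) h4 h4' hlt
      have hc1 := hA.1 k M c i j hc hi hj h3
      have h0 : cE c i j i j' = 0 := by
        unfold cE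
        rw [if_neg (by omega)]
        exact h3'
      refine contra hR (hA.1 k _ _ i j' hc1 hi hj' h0) hX
        ((hE.addE hX.symm ?_).addE hX.symm ?_)
      · rw [hju]; exact hWA u hu
      · rw [hjv]; exact hWA v hv
    -- one old, one new
    have mixed : ∀ (u v : V) (j : ℕ), u ∈ W → v ∈ W → j < k → φ j = u → (∀ a, a < k → φ a ≠ v) →
        False := by
      intro u v j hu hv hj hju hnot
      obtain ⟨h2, h3, h4⟩ := hWj u hu j hj hju
      have hk18 : k < 18 := by
        have := hcount {v} (by
          intro w' hw' j hj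
          rw [mem_singleton] at hw'
          rw [hw']
          exact hnot j hj)
        rw [card_singleton] at this
        omega
      have hR : Ref (k + 1, addE (addE (addV M k) i k) i j) := by
        refine hk _ ?_
        rw [kids2 hd, if_pos hk18]
        exact prs_base _ _ (List.mem_append_left _ (List.mem_map.2 ⟨j, h4, rfl⟩))
      have hc1 := hA.2.1 k M c hc hk18
      have h0 : cV c k i k = 0 := by
        unfold cV
        rw [if_neg (by omega), hc.sy, hc.out _ _ le_rfl]
      have hc2 := hA.1 (k + 1) _ _ i k hc1 (by omega) (by omega) h0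
      have h0' : cE (cV c k) i k i j = 0 := by
        unfold cE cV
        rw [if_neg (by omega), if_neg (by omega)]
        exact h3
      refine contra hR (hA.1 (k + 1) _ _ i j hc2 (by omega) (by omega) h0') hX
        (((hE.addV hc hnot).addE hX.symm ?_).addE hX.symm ?_)
      · rw [hiV, Function.update_self]
        exact hWA v hv
      · rw [hiV, Function.update_of_ne (by omega), hju]
        exact hWA u hu
    by_cases him1 : ∃ j, j < k ∧ φ j = w1
    · obtain ⟨j1, hj1, hjw1⟩ := him1
      by_cases him2 : ∃ j, j < k ∧ φ j = w2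
      · obtain ⟨j2, hj2, hjw2⟩ := him2
        rcases Nat.lt_trichotomy j1 j2 with h | h | h
        · exact both w2 w1 j2 j1 hw2 hw1 hj2 hj1 hjw2 hjw1 h
        · subst h
          exact hne (hjw1.symm.trans hjw2)
        · exact both w1 w2 j1 j2 hw1 hw2 hj1 hj2 hjw1 hjw2 h
      · exact mixed w1 w2 j1 hw1 hw2 hj1 hjw1 fun a ha h => him2 ⟨a, ha, h⟩
    · have hnot1 : ∀ j, j < k → φ j ≠ w1 := fun j hj h => him1 ⟨j, hj, h⟩
      by_cases him2 : ∃ j, j < k ∧ φ j = w2
      · obtain ⟨j2, hj2, hjw2⟩ := him2
        exact mixed w2 w1 j2 hw2 hw1 hj2 hjw2 hnot1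
      · have hnot2 : ∀ j, j < k → φ j ≠ w2 := fun j hj h => him2 ⟨j, hj, h⟩
        have hk18 : k + 1 < 18 := by
          have := hcount {w1, w2} (by
            intro w' hw' j hj
            rw [mem_insert, mem_singleton] at hw'
            rcases hw' with rfl | rfl
            · exact hnot1 j hj
            · exact hnot2 j hj)
          rw [card_pair hne] at this
          omega
        have hR : Ref (k + 2, addE (addE (addV (addV M k) (k + 1)) i k) i (k + 1)) := by
          refine hk _ ?_
          rw [kids2 hd, if_pos (by omega), if_pos hk18]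
          exact prs_base _ _ (List.mem_append_right _ List.mem_cons_self)
        have hc1 := hA.2.1 k M c hc (by omega)
        have hc2 := hA.2.1 (k + 1) _ _ hc1 hk18
        have h0 : cV (cV c k) (k + 1) i k = 0 := by
          unfold cV
          rw [if_neg (by omega), if_neg (by omega), hc.sy, hc.out _ _ le_rfl]
        have hc3 := hA.1 (k + 1 + 1) _ _ i k hc2 (by omega) (by omega) h0
        have h0' : cE (cV (cV c k) (k + 1)) i k i (k + 1) = 0 := by
          unfold cE cV
          rw [if_neg (by omega), if_neg (by omega), if_neg (by omega), hc.sy, hc.out _ _ (by omega)]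
        have hE1 := hE.addV hc hnot1
        have hnot2' : ∀ a, a < k + 1 → Function.update φ k w1 a ≠ w2 := by
          intro a ha
          rcases Nat.lt_succ_iff_lt_or_eq.1 ha with ha | rfl
          · rw [Function.update_of_ne (by omega)]
            exact hnot2 a ha
          · rw [Function.update_self]
            exact hne
        have hE2 := hE1.addV hc1 hnot2'
        refine contra hR (hA.1 (k + 1 + 1) _ _ i (k + 1) hc3 (by omega) (by omega) h0') hX
          ((hE2.addE hX.symm ?_).addE hX.symm ?_)
        · rw [Function.update_of_ne (by omega), hiV, Function.update_of_ne (by omega), Function.update_self]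
          exact hA1
        · rw [Function.update_of_ne (by omega), hiV, Function.update_self]
          exact hA2

end Pool.Agent.J6H77.N18
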