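import Pool.Agent.J6H77.N18.Stm

/-!
# Module ROW
-/

set_option autoImplicit false

namespace Pool.Agent.J6H77.N18

open Finset

theorem t_Row (hC : S_Comp) : S_Row := by
  classical
  intro k M c V _ _ A _ φ hS hX hinj hadj y i hik hdeg
  have hcomp := hC k M c V A φ hS hX hinj hadj i hik hdeg
  set J : Finset ℕ := (range k).filter (fun j => j ≠ i ∧ c i j = 1) with hJ
  have hout : ∀ j, k ≤ j → c i j = 0 := fun j hj => by rw [hS.sy i j]; exact hS.out j i hj
  have hfil : univ.filter (fun w => A (φ i) w) = J.image φ := by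
    ext w
    rw [mem_filter, mem_image]
    constructor
    · rintro ⟨-, hw⟩
      obtain ⟨j, h1, h2, h3, h4⟩ := (hcomp w).1 hw
      exact ⟨j, mem_filter.2 ⟨mem_range.2 h1, h2, h3⟩, h4.symm⟩
    · rintro ⟨j, hj, hw⟩
      have hj' := mem_filter.1 hj
      exact ⟨mem_univ _, (hcomp w).2 ⟨j, mem_range.1 hj'.1, hj'.2.1, hj'.2.2, hw.symm⟩⟩
  have h1 : ∑ w, (if A (φ i) w then y w else 0) = ∑ j ∈ J, y (φ j) := by
    rw [← sum_filter, hfil, sum_image]
    intro a ha b hb hab
    exact hinj a b (mem_range.1 (mem_filter.1 ha).1) (mem_range.1 (mem_filter.1 hb).1) hab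
  have hset : (range 18).filter (fun j => c i j = 1) = insert i J := by
    ext j
    rw [mem_filter, mem_range, mem_insert, mem_filter, mem_range]
    have hk := hS.k18
    constructor
    · rintro ⟨hj, hc⟩
      by_cases hji : j = i
      · exact Or.inl hji
      · refine Or.inr ⟨?_, hji, hc⟩
        by_contra hjk
        rw [hout j (not_lt.1 hjk)] at hc
        exact zero_ne_one hc
    · rintro (hji | ⟨hj, -, hc⟩)
      · rw [hji]
        exact ⟨by omega, hS.di i hik⟩
      · exact ⟨by omega, hc⟩
  have hiJ : i ∉ J := fun h => (mem_filter.1 h).2.1 rfl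
  have h2 : ∑ j ∈ range 18, (c i j : ℝ) * y (φ j) =
      ∑ j ∈ range 18, (if c i j = 1 then y (φ j) else 0) := by
    refine sum_congr rfl fun j _ => ?_
    have hle := hS.le1 i j
    by_cases hc : c i j = 1
    · rw [if_pos hc, hc]
      simp
    · have hc0 : c i j = 0 := by omega
      rw [if_neg hc, hc0]
      simp
  rw [h1, h2, ← sum_filter, hset, sum_insert hiJ]

end Pool.Agent.J6H77.N18
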