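import Pool.Agent.J6H77.N18.Stm

/-! Module ZERO: soundness of the zero certificates (helper73). -/

set_option autoImplicit false

namespace Pool.Agent.J6H77.N18

open Finset

namespace ZERO

theorem digits_unique (B : ℕ) : ∀ (n : ℕ) (d e : ℕ → ℕ), (∀ j < n, d j < B) → (∀ j < n, e j < B) →
    ∑ j ∈ range n, d j * B ^ j = ∑ j ∈ range n, e j * B ^ j → ∀ j < n, d j = e j := by
  intro n
  induction n with
  | zero => intro d e _ _ _ j hj; omega
  | succ n ih =>
    intro d e hd he h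
    rw [Finset.sum_range_succ', Finset.sum_range_succ'] at h
    have e1 : ∀ f : ℕ → ℕ, ∑ j ∈ range n, f (j + 1) * B ^ (j + 1) = B * ∑ j ∈ range n, f (j + 1) * B ^ j := by
      intro f
      rw [Finset.mul_sum]
      exact Finset.sum_congr rfl fun j _ => by ring
    rw [e1 d, e1 e, pow_zero, mul_one, mul_one] at h
    have hB : 0 < B := (Nat.zero_le _).trans_lt (hd 0 (by omega))
    have h0 : d 0 = e 0 := by
      have h2 := congrArg (· % B) h
      simp only [Nat.mul_add_mod] at h2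
      rwa [Nat.mod_eq_of_lt (hd 0 (by omega)), Nat.mod_eq_of_lt (he 0 (by omega))] at h2
    have h1 : ∑ j ∈ range n, d (j + 1) * B ^ j = ∑ j ∈ range n, e (j + 1) * B ^ j := by
      rw [h0] at h
      exact Nat.eq_of_mul_eq_mul_left hB (Nat.add_right_cancel h)
    have h2 := ih (fun j => d (j + 1)) (fun j => e (j + 1)) (fun j hj => hd (j + 1) (by omega))
      (fun j hj => he (j + 1) (by omega)) h1
    intro j hj
    cases j with
    | zero => exact h0
    | succ j => exact h2 j (by omega)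

theorem col_le {c : ℕ → ℕ → ℕ} (hc : ∀ i j, c i j ≤ 1) (p : ℕ → ℕ) (j : ℕ) :
    ∑ i ∈ range 18, p i * c i j ≤ ∑ i ∈ range 18, p i :=
  Finset.sum_le_sum fun i _ => by
    have := Nat.mul_le_mul_left (p i) (hc i j)
    omega

theorem sum_rows {M : ℕ} {c : ℕ → ℕ → ℕ} (hrow : ∀ i, i < 18 → row M i = ∑ j ∈ range 18, c i j * 65536 ^ j)
    (p : ℕ → ℕ) : ∑ i ∈ range 18, p i * row M i =
      ∑ j ∈ range 18, (∑ i ∈ range 18, p i * c i j) * 65536 ^ j := by
  have e1 : ∑ i ∈ range 18, p i * row M i = ∑ i ∈ range 18, ∑ j ∈ range 18, p i * c i j * 65536 ^ j := by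
    refine Finset.sum_congr rfl fun i hi => ?_
    rw [hrow i (Finset.mem_range.1 hi), Finset.mul_sum]
    exact Finset.sum_congr rfl fun j _ => by ring
  rw [e1, Finset.sum_comm]
  exact Finset.sum_congr rfl fun j _ => by rw [Finset.sum_mul]

end ZERO

open ZERO in
theorem t_Zero (hD : S_Dig) (hF : S_Fold) (hR : S_Row) : S_Zero := by
  intro k M w hz c hS V _ _ A _ hcx hocc
  obtain ⟨φ, hφ1, hφ2⟩ := hocc
  obtain ⟨x, hx0, hxk, -⟩ := hcx.ex
  change Sh k M c at hS
  simp only at hφ1 hφ2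
  obtain ⟨-, hrow, -, hcd, hcd0⟩ := hD k M c hS
  unfold zeroC at hz
  rw [Bool.and_eq_true, Bool.and_eq_true] at hz
  obtain ⟨hz1, hz2, hz3⟩ := hz
  have hv : w % 32 < k := by
    have h : Nat.blt (Nat.mod w 32) k = true := hz1
    rw [Nat.blt_eq] at h
    exact h
  set v := w % 32 with hvdef
  obtain ⟨cc, hcc⟩ : ∃ cc, cc = Nat.mod (Nat.shiftRight w 5) 2048 := ⟨_, rfl⟩
  rw [← hcc] at hz2 hz3
  have hcc0 : cc ≠ 0 := by
    intro h
    rw [h] at hz2
    exact absurd hz2 (by decide)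
  have hcc1 : cc < 2048 := by
    rw [hcc]
    exact Nat.mod_lt _ (by norm_num)
  obtain ⟨np, hnp⟩ : ∃ np, np = Nat.mod (Nat.shiftRight w 16) 32 := ⟨_, rfl⟩
  obtain ⟨nq, hnq⟩ : ∃ nq, nq = Nat.mod (Nat.shiftRight w 21) 32 := ⟨_, rfl⟩
  rw [← hnp, ← hnq] at hz3
  have hnp1 : np < 32 := by rw [hnp]; exact Nat.mod_lt _ (by norm_num)
  have hnq1 : nq < 32 := by rw [hnq]; exact Nat.mod_lt _ (by norm_num)
  obtain ⟨C1, hC1⟩ : ∃ C, C = Nat.shiftRight w 26 := ⟨_, rfl⟩
  obtain ⟨C2, hC2⟩ : ∃ C, C = Nat.shiftRight w (Nat.add 26 (Nat.mul 16 np)) := ⟨_, rfl⟩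
  rw [← hC1, ← hC2] at hz3
  rcases hP : fold M 31 31 np C1 0 with _ | P
  · rw [hP] at hz3
    exact absurd hz3 (by simp)
  rcases hQ : fold M 31 31 nq C2 0 with _ | Q
  · rw [hP, hQ] at hz3
    exact absurd hz3 (by simp)
  rw [hP, hQ] at hz3
  have hPQ : P = Q + cc * 65536 ^ v := by
    have h1 := Nat.eq_of_beq_eq_true hz3
    rw [h1]
    change Q + cc <<< (16 * (w % 32)) = _
    rw [Nat.shiftLeft_eq, pow_mul, ← hvdef]
    norm_num
  obtain ⟨p, hp1, hp2, hp3⟩ := hF M 31 31 np C1 0 P hcd0 hP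
  obtain ⟨q, hq1, hq2, hq3⟩ := hF M 31 31 nq C2 0 Q hcd0 hQ
  rw [zero_add] at hp3 hq3
  have hv18 : v < 18 := lt_of_lt_of_le hv hS.k18
  rw [hp3, hq3, sum_rows hrow, sum_rows hrow] at hPQ
  have hPQ2 : ∑ j ∈ range 18, (∑ i ∈ range 18, p i * c i j) * 65536 ^ j =
      ∑ j ∈ range 18, (∑ i ∈ range 18, q i * c i j + if j = v then cc else 0) * 65536 ^ j := by
    rw [hPQ]
    simp only [add_mul, Finset.sum_add_distrib, ite_mul, zero_mul]
    rw [Finset.sum_ite_eq' (range 18) v, if_pos (Finset.mem_range.2 hv18)]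
  have hdig := digits_unique 65536 18 _ _ (fun j _ => by
      have h1 := col_le hS.le1 p j
      show ∑ i ∈ range 18, p i * c i j < 65536
      have h2 : 2047 * np ≤ 2047 * 31 := Nat.mul_le_mul_left _ (by omega)
      omega) (fun j _ => by
      have h1 := col_le hS.le1 q j
      show (∑ i ∈ range 18, q i * c i j + if j = v then cc else 0) < 65536
      have h2 : 2047 * nq ≤ 2047 * 31 := Nat.mul_le_mul_left _ (by omega)
      split_ifs <;> omega) hPQ2
  -- the kernel equations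
  have hker : ∀ i, i < 18 → cdeg M i = 4 → ∑ j ∈ range 18, (c i j : ℝ) * x (φ j) = 0 := by
    intro i hi h4
    rw [hcd i hi] at h4
    have hik : i < k := by
      by_contra hcon
      have h0 : ∑ j ∈ range 18, c i j = 0 :=
        Finset.sum_eq_zero fun j _ => hS.out i j (not_lt.1 hcon)
      omega
    rw [← hR k M c V A φ hS hcx hφ1 hφ2 x i hik h4]
    exact hxk (φ i)
  have hsum : ∀ r : ℕ → ℕ, (∀ i, r i ≠ 0 → cdeg M i = 4 ∧ i ≠ 31 ∧ i ≠ 31) →
      ∑ j ∈ range 18, ((∑ i ∈ range 18, r i * c i j : ℕ) : ℝ) * x (φ j) = 0 := by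
    intro r hr
    have e1 : ∑ j ∈ range 18, ((∑ i ∈ range 18, r i * c i j : ℕ) : ℝ) * x (φ j) =
        ∑ i ∈ range 18, (r i : ℝ) * ∑ j ∈ range 18, (c i j : ℝ) * x (φ j) := by
      push_cast
      simp only [Finset.sum_mul, Finset.mul_sum]
      rw [Finset.sum_comm]
      exact Finset.sum_congr rfl fun i _ => Finset.sum_congr rfl fun j _ => by ring
    rw [e1]
    refine Finset.sum_eq_zero fun i hi => ?_
    by_cases h0 : r i = 0
    · rw [h0, Nat.cast_zero, zero_mul]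
    · rw [hker i (Finset.mem_range.1 hi) (hr i h0).1, mul_zero]
  have h1 := hsum p hp1
  have h2 := hsum q hq1
  have h3 : ∑ j ∈ range 18, ((∑ i ∈ range 18, p i * c i j : ℕ) : ℝ) * x (φ j) =
      ∑ j ∈ range 18, ((∑ i ∈ range 18, q i * c i j : ℕ) : ℝ) * x (φ j) + cc * x (φ v) := by
    have e1 : ∀ j ∈ range 18, ((∑ i ∈ range 18, p i * c i j : ℕ) : ℝ) * x (φ j) =
        ((∑ i ∈ range 18, q i * c i j : ℕ) : ℝ) * x (φ j) + (if j = v then (cc : ℝ) * x (φ j) else 0) := by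
      intro j hj
      rw [hdig j (Finset.mem_range.1 hj)]
      split_ifs
      · push_cast
        ring
      · simp
    rw [Finset.sum_congr rfl e1, Finset.sum_add_distrib, Finset.sum_ite_eq' (range 18) v,
      if_pos (Finset.mem_range.2 hv18)]
  rw [h1, h2, zero_add] at h3
  rcases mul_eq_zero.1 h3.symm with h4 | h4
  · exact hcc0 (by exact_mod_cast h4)
  · exact hx0 _ h4

end Pool.Agent.J6H77.N18
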