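import Pool.Agent.J6H77.N18.DIG
import Pool.Agent.J6H77.N18.ADD
import Pool.Agent.J6H77.N18.FOLD
import Pool.Agent.J6H77.N18.COMP
import Pool.Agent.J6H77.N18.ROW
import Pool.Agent.J6H77.N18.ZERO
import Pool.Agent.J6H77.N18.DEP
import Pool.Agent.J6H77.N18.KIDS
import Pool.Agent.J6H77.N18.ITEM
import Pool.Agent.J6H77.N18.CX
import Pool.Agent.J6H77.N18.Chain
import Pool.Agent.J6H63.N18.EMB

/-!
# Soundness of the checker
-/

set_option autoImplicit false

namespace Pool.Agent.J6H77.N18

open Finset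

theorem t_Emb : S_Emb := Pool.Agent.J6H63.N18.t_Emb t_Dig

theorem item_all : S_Item :=
  t_Item t_Dig t_Add (t_Zero t_Dig t_Fold (t_Row t_Comp))
    (t_Dep t_Dig t_Fold t_Comp (t_Row t_Comp)) t_Emb (t_Kids t_Dig t_Add t_Comp)

theorem Chain.ref {tab : ℕ → ℕ} {N : ℕ} (h : Chain tab 0 N) (m : ℕ) (hm : m < N) :
    RefP (tab m) := by
  obtain ⟨l, h1, h2⟩ := h
  exact item_all tab 0 l h1 (fun m hm => absurd hm (Nat.not_lt_zero m)) m (by omega)

/-- the code of the star with three edges: `k = 4`, edges `0 1`, `0 2`, `0 3` -/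
def star : ℕ := 4 + 32 * (0 + 32 * 1) + 32 * 1024 * (0 + 32 * 2) + 32 * 1024 * 1024 * (0 + 32 * 3)

theorem star_edges : edg 27 (Nat.shiftRight star 5) = [(0, 1), (0, 2), (0, 3)] := by
  decide +kernel

theorem not_star : ¬ (RefP star ∧ 18 ∈ Pool.Agent.TH296.Nut.nutOrders 14) := by
  rintro ⟨h, h18⟩
  obtain ⟨V, _, _, A, _, hc⟩ := t_Cx h18
  have hk : Nat.mod star 32 = 4 := by decide
  apply h.2 V A hc
  obtain ⟨v⟩ : Nonempty V := by
    rw [← Fintype.card_pos_iff, hc.card]
    norm_num
  obtain ⟨a, b, c, hab, hac, hbc, habc⟩ := Finset.card_eq_three.1 (hc.deg v)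
  have ha : A v a := by
    have : a ∈ univ.filter (fun w => A v w) := by rw [habc]; simp
    exact (Finset.mem_filter.1 this).2
  have hb : A v b := by
    have : b ∈ univ.filter (fun w => A v w) := by rw [habc]; simp
    exact (Finset.mem_filter.1 this).2
  have hcc : A v c := by
    have : c ∈ univ.filter (fun w => A v w) := by rw [habc]; simp
    exact (Finset.mem_filter.1 this).2
  have hva : v ≠ a := by rintro rfl; exact hc.irr _ ha
  have hvb : v ≠ b := by rintro rfl; exact hc.irr _ hb
  have hvc : v ≠ c := by rintro rfl; exact hc.irr _ hcc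
  refine ⟨fun i => if i = 0 then v else if i = 1 then a else if i = 2 then b else c, ?_, ?_⟩
  · intro i j hi hj hij
    rw [hk] at hi hj
    interval_cases i <;> interval_cases j <;> simp_all
  · intro e he
    rw [star_edges] at he
    simp only [List.mem_cons, List.not_mem_nil, or_false] at he
    rcases he with rfl | rfl | rfl <;> simpa

end Pool.Agent.J6H77.N18
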