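import Pool.Agent.J6H77.N18.Def

/-!
# Statements of the modules of the soundness proof

Everything is elementary.  Notation: `Sh k M c` = the number `M` stores the closed adjacency matrix
`c` of a partial graph on the labels `< k`; `Occ k c V A` = it occurs in the graph `A`; `Ref (k, M)`
= it does not occur in any counterexample.
-/

set_option autoImplicit false

namespace Pool.Agent.J6H77.N18

open Finset

/-- Module DIG (digits).  Proof: `M = ∑ t < 324, d t * B ^ t` with `B = 65536`, `d t < B`; quotient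
by `B ^ s` and remainder modulo `B` (or `B ^ 18`) pick digits; `B = 1` modulo `65535` and
`∑ j, c i j ≤ 18 < 65535`. -/
def S_Dig : Prop :=
  ∀ (k M : ℕ) (c : ℕ → ℕ → ℕ), Sh k M c →
    (∀ i j, i < 18 → j < 18 → ent M i j = c i j) ∧
    (∀ i, i < 18 → row M i = ∑ j ∈ range 18, c i j * 65536 ^ j) ∧
    (∀ i, 18 ≤ i → row M i = 0) ∧
    (∀ i, i < 18 → cdeg M i = ∑ j ∈ range 18, c i j) ∧
    (∀ i, 18 ≤ i → cdeg M i = 0)

/-- adding an edge -/
def cE (c : ℕ → ℕ → ℕ) (i j a b : ℕ) : ℕ :=
  if (a = i ∧ b = j) ∨ (a = j ∧ b = i) then 1 else c a b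

/-- adding a label -/
def cV (c : ℕ → ℕ → ℕ) (k a b : ℕ) : ℕ := if a = k ∧ b = k then 1 else c a b

/-- Module ADD.  Proof: the sum for `M` changes by the two (one) new terms. -/
def S_Add : Prop :=
  (∀ (k M : ℕ) (c : ℕ → ℕ → ℕ) (i j : ℕ), Sh k M c → i < k → j < k → c i j = 0 →
    Sh k (addE M i j) (cE c i j)) ∧
  (∀ (k M : ℕ) (c : ℕ → ℕ → ℕ), Sh k M c → k < 18 → Sh (k + 1) (addV M k) (cV c k)) ∧
  Sh 0 0 (fun _ _ => 0)

/-- Module FOLD.  Proof: induction on the first number. -/
def S_Fold : Prop :=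
  ∀ (M a b n C P P' : ℕ), (∀ i, 18 ≤ i → cdeg M i = 0) → fold M a b n C P = some P' →
    ∃ p : ℕ → ℕ, (∀ i, p i ≠ 0 → cdeg M i = 4 ∧ i ≠ a ∧ i ≠ b) ∧
      ∑ i ∈ range 18, p i ≤ 2047 * n ∧ P' = P + ∑ i ∈ range 18, p i * row M i

/-- Module COMP: the neighbours of a completed label.  Proof: the closed degree `4` gives three
labels `j ≠ i` with `c i j = 1`, their images are three different neighbours of `φ i`, and `φ i` has
exactly three neighbours. -/
def S_Comp : Prop :=
  ∀ (k M : ℕ) (c : ℕ → ℕ → ℕ) (V : Type) [Fintype V] [DecidableEq V] (A : V → V → Prop)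
    [DecidableRel A] (φ : ℕ → V), Sh k M c → Cx V A →
    (∀ i j, i < k → j < k → φ i = φ j → i = j) →
    (∀ i j, i < k → j < k → i ≠ j → c i j = 1 → A (φ i) (φ j)) →
    ∀ i, i < k → ∑ j ∈ range 18, c i j = 4 →
      ∀ w, A (φ i) w ↔ ∃ j, j < k ∧ j ≠ i ∧ c i j = 1 ∧ w = φ j

/-- Module ROW (uses COMP): kernel equation at a completed label, for every `y`. -/
def S_Row : Prop :=
  ∀ (k M : ℕ) (c : ℕ → ℕ → ℕ) (V : Type) [Fintype V] [DecidableEq V] (A : V → V → Prop)
    [DecidableRel A] (φ : ℕ → V), Sh k M c → Cx V A →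
    (∀ i j, i < k → j < k → φ i = φ j → i = j) →
    (∀ i j, i < k → j < k → i ≠ j → c i j = 1 → A (φ i) (φ j)) →
    ∀ (y : V → ℝ) (i : ℕ), i < k → ∑ j ∈ range 18, c i j = 4 →
      y (φ i) + ∑ w, (if A (φ i) w then y w else 0) = ∑ j ∈ range 18, (c i j : ℝ) * y (φ j)

/-- Module ZERO (uses DIG, FOLD, ROW and uniqueness of digits): with the coefficients `p`, `q` of the
two folds, `∑ p i row i = ∑ q i row i + c * 65536 ^ v`; all column sums are at most
`31 * 2047 + 2047 < 65536`, so for all columns `j < 18`,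
`∑ i, p i * c i j = ∑ i, q i * c i j + [j = v] c`.  Multiply with the kernel vector `x` at `φ j` and
sum: `0 = 0 + c * x (φ v)`, contradiction. -/
def S_Zero : Prop := ∀ k M w : ℕ, zeroC k M w = true → Ref (k, M)

/-- Module DEP (uses DIG, FOLD, COMP and uniqueness of digits): the vector `y` on the graph with
`y (φ i) = p i - q i + [i = a] d`, `y = 0` outside, is in the kernel (at `φ j` by the column `j` and
the symmetry of `c`, elsewhere because completed labels have all their neighbours among the labels),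
so `y = c' x`; it vanishes at `φ b` (or at a vertex outside the image if `k < 18`), so `c' = 0`;
but `y (φ a) = d ≠ 0`. -/
def S_Dep : Prop := ∀ k M w : ℕ, depC k M w = true → Ref (k, M)

/-- Module EMB: compose the maps. -/
def S_Emb : Prop := ∀ k M p F : ℕ, embC k M p F = true → RefP p → Ref (k, M)

/-- Module KIDS (uses DIG, ADD, COMP): let `W` be the set of the neighbours of `φ i` which are not
images of neighbours of `i`; it has one (two) elements.  If `φ j ∈ W` then `j` is a candidate (it is
not adjacent to `i`, and it is not completed, as otherwise `φ i` would be the image of a neighbour of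
`j`).  The other elements of `W` are outside the image of `φ` and become the images of new labels. -/
def S_Kids : Prop :=
  ∀ (k M i : ℕ) (r : List (ℕ × ℕ)), i < k → (cdeg M i = 3 ∨ cdeg M i = 2) →
    (∀ s ∈ kids k M i r, Ref s) → Ref (k, M) ∧ ∀ s ∈ r, Ref s

/-- Module ITEM (uses the others): induction on the list of codes for `run`; `bldE` gives a state
stored by a matrix whose entries are edges of the pattern. -/
def S_Item : Prop :=
  ∀ (tab : ℕ → ℕ) (n : ℕ) (l : List (List ℕ)), items tab n l = true →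
    (∀ m, m < n → RefP (tab m)) → ∀ m, m < n + l.length → RefP (tab m)

/-- Module CX: from a nut graph to a counterexample: `A u v := u ≠ v ∧ ¬ G.Adj u v`. -/
def S_Cx : Prop :=
  18 ∈ Pool.Agent.TH296.Nut.nutOrders 14 → ∃ (V : Type) (_ : Fintype V) (_ : DecidableEq V)
    (A : V → V → Prop) (_ : DecidableRel A), Cx V A

end Pool.Agent.J6H77.N18
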